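import Pool.Agent.Helper95_CM.StF

/-!
# Base lemmas for the block MAT (helper69)
-/

set_option autoImplicit false
set_option linter.unusedSectionVars false

noncomputable section

namespace Pool.Agent.Helper95_CM.H69

open Pool.Agent.Helper95_CM

section tf

variable {p : ℕ} [Fact p.Prime] {𝒪 : Type} [CommRing 𝒪] {z : ℤ_[p] →+* 𝒪} {φ : 𝒪 →+* 𝒪}

lemma pow_tf (h : OBase p z φ) (k : ℕ) (x : 𝒪) (hx : (p : 𝒪) ^ k * x = 0) : x = 0 := by
  induction k with
  | zero => simpa using hx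
  | succ k ih =>
    apply ih
    apply h.tf
    rw [← hx]
    ring

lemma z_tf (h : OBase p z φ) {a : ℤ_[p]} (ha : a ≠ 0) (x : 𝒪) (hx : z a * x = 0) : x = 0 := by
  have h1 := PadicInt.unitCoeff_spec ha
  have h2 : z a = z (PadicInt.unitCoeff ha : ℤ_[p]) * (p : 𝒪) ^ a.valuation := by
    conv_lhs => rw [h1]
    rw [map_mul, map_pow, map_natCast]
  have h3 : IsUnit (z (PadicInt.unitCoeff ha : ℤ_[p])) := (PadicInt.unitCoeff ha).isUnit.map z
  rw [h2, mul_assoc] at hx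
  exact pow_tf h _ x ((IsUnit.mul_right_eq_zero h3).mp hx)

lemma nat_tf (h : OBase p z φ) {n : ℕ} (hn : n ≠ 0) (x : 𝒪) (hx : (n : 𝒪) * x = 0) : x = 0 := by
  apply z_tf h (a := (n : ℤ_[p])) (by exact_mod_cast hn) x
  rw [map_natCast]
  exact hx

end tf

section coef

variable {𝒪 : Type} [CommRing 𝒪]

lemma coeff_Cmul (c : 𝒪) (x : LaurentSeries 𝒪) (m : ℤ) :
    (HahnSeries.C c * x).coeff m = c * x.coeff m := by
  rw [HahnSeries.C_mul_eq_smul, HahnSeries.coeff_smul, smul_eq_mul]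

lemma natCast_C (n : ℕ) : ((n : ℕ) : LaurentSeries 𝒪) = HahnSeries.C ((n : ℕ) : 𝒪) := by
  rw [map_natCast]

lemma coeff_nat_mul (n : ℕ) (x : LaurentSeries 𝒪) (m : ℤ) :
    ((n : LaurentSeries 𝒪) * x).coeff m = (n : 𝒪) * x.coeff m := by
  rw [natCast_C, coeff_Cmul]

lemma coeff_natpow_mul (n k : ℕ) (x : LaurentSeries 𝒪) (m : ℤ) :
    ((n : LaurentSeries 𝒪) ^ k * x).coeff m = (n : 𝒪) ^ k * x.coeff m := by
  rw [natCast_C, ← map_pow, coeff_Cmul]

lemma tht_Cmul (c : 𝒪) (x : LaurentSeries 𝒪) :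
    tht 𝒪 (HahnSeries.C c * x) = HahnSeries.C c * tht 𝒪 x := by
  ext m
  rw [tht_coeff, coeff_Cmul, coeff_Cmul, tht_coeff]
  ring

end coef

section nb

variable {𝒪 : Type} [CommRing 𝒪] {I : Type} [Fintype I] [DecidableEq I]

lemma nbv_Csmul (Q : Matrix I I (LaurentSeries 𝒪)) (c : 𝒪) (x : I → LaurentSeries 𝒪) :
    nbv (tht 𝒪) Q ((HahnSeries.C c : LaurentSeries 𝒪) • x)
      = (HahnSeries.C c : LaurentSeries 𝒪) • nbv (tht 𝒪) Q x := by
  funext i
  change tht 𝒪 (HahnSeries.C c * x i) + (Q.mulVec ((HahnSeries.C c : LaurentSeries 𝒪) • x)) i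
    = HahnSeries.C c * (tht 𝒪 (x i) + (Q.mulVec x) i)
  rw [tht_Cmul, Matrix.mulVec_smul]
  simp only [Pi.smul_apply, smul_eq_mul]
  ring

lemma nbv_natsmul (Q : Matrix I I (LaurentSeries 𝒪)) (n : ℕ) (x : I → LaurentSeries 𝒪) :
    nbv (tht 𝒪) Q ((n : LaurentSeries 𝒪) • x) = (n : LaurentSeries 𝒪) • nbv (tht 𝒪) Q x := by
  rw [natCast_C, nbv_Csmul]

end nb

section ev

variable {p : ℕ} [Fact p.Prime] {𝒪 : Type} [CommRing 𝒪] (z : ℤ_[p] →+* 𝒪)
variable {I : Type} [Fintype I] [DecidableEq I] (Q : Matrix I I (LaurentSeries 𝒪))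

/-- scalars acting on vectors -/
def sc (I : Type) [Fintype I] [DecidableEq I] :
    ℤ_[p] →+* AddMonoid.End (I → LaurentSeries 𝒪) :=
  (Module.toAddMonoidEnd (LaurentSeries 𝒪) (I → LaurentSeries 𝒪)).comp
    ((HahnSeries.C : 𝒪 →+* LaurentSeries 𝒪).comp z)

lemma sc_apply (c : ℤ_[p]) (x : I → LaurentSeries 𝒪) :
    sc z I c x = (HahnSeries.C (z c) : LaurentSeries 𝒪) • x := rfl

lemma sc_comm (c : ℤ_[p]) : Commute (sc z I c) (nbE (tht 𝒪) Q) := by
  refine AddMonoidHom.ext fun x => ?_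
  change sc z I c (nbv (tht 𝒪) Q x) = nbv (tht 𝒪) Q (sc z I c x)
  rw [sc_apply, sc_apply, nbv_Csmul]

/-- polynomials in the connection -/
def ev : Polynomial ℤ_[p] →+* AddMonoid.End (I → LaurentSeries 𝒪) :=
  Polynomial.eval₂RingHom' (sc z I) (nbE (tht 𝒪) Q) (sc_comm z Q)

lemma ev_X (x : I → LaurentSeries 𝒪) : ev z Q Polynomial.X x = nbv (tht 𝒪) Q x := by
  have : ev z Q Polynomial.X = nbE (tht 𝒪) Q := by
    unfold ev
    exact Polynomial.eval₂_X _ _
  rw [this]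
  rfl

lemma ev_C (c : ℤ_[p]) (x : I → LaurentSeries 𝒪) :
    ev z Q (Polynomial.C c) x = (HahnSeries.C (z c) : LaurentSeries 𝒪) • x := by
  have : ev z Q (Polynomial.C c) = sc z I c := by
    unfold ev
    exact Polynomial.eval₂_C _ _
  rw [this, sc_apply]

lemma ev_mul (P R : Polynomial ℤ_[p]) (x : I → LaurentSeries 𝒪) :
    ev z Q (P * R) x = ev z Q P (ev z Q R x) := by
  rw [map_mul]
  rfl

lemma ev_add (P R : Polynomial ℤ_[p]) (x : I → LaurentSeries 𝒪) :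
    ev z Q (P + R) x = ev z Q P x + ev z Q R x := by
  rw [map_add]
  rfl

lemma ev_sub (P R : Polynomial ℤ_[p]) (x : I → LaurentSeries 𝒪) :
    ev z Q (P - R) x = ev z Q P x - ev z Q R x := by
  rw [map_sub]
  rfl

lemma ev_sum {ι : Type} (s : Finset ι) (f : ι → Polynomial ℤ_[p]) (x : I → LaurentSeries 𝒪) :
    ev z Q (∑ i ∈ s, f i) x = ∑ i ∈ s, ev z Q (f i) x := by
  classical
  induction s using Finset.induction_on with
  | empty => rw [Finset.sum_empty, Finset.sum_empty, map_zero]; rfl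
  | insert a s ha ih => rw [Finset.sum_insert ha, Finset.sum_insert ha, ev_add, ih]

lemma ev_natCast_mul (n : ℕ) (P : Polynomial ℤ_[p]) (x : I → LaurentSeries 𝒪) :
    ev z Q ((n : Polynomial ℤ_[p]) * P) x = (n : LaurentSeries 𝒪) • ev z Q P x := by
  rw [ev_mul]
  have : ((n : ℕ) : Polynomial ℤ_[p]) = Polynomial.C ((n : ℕ) : ℤ_[p]) := by
    rw [map_natCast]
  rw [this, ev_C, map_natCast, map_natCast]

/-- `Π_{j<i} (X + a - j)` -/
def Dp (a : ℤ_[p]) (i : ℕ) : Polynomial ℤ_[p] :=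
  ∏ j ∈ Finset.range i, (Polynomial.X + Polynomial.C (a - (j : ℤ_[p])))

lemma Dp_zero (a : ℤ_[p]) : Dp a 0 = 1 := by simp [Dp]

lemma Dp_succ (a : ℤ_[p]) (i : ℕ) :
    Dp a (i + 1) = (Polynomial.X + Polynomial.C (a - (i : ℤ_[p]))) * Dp a i := by
  unfold Dp
  rw [Finset.prod_range_succ, mul_comm]

lemma Dp_succ' (a : ℤ_[p]) (i : ℕ) :
    Dp a (i + 1) = (Polynomial.X + Polynomial.C a) * Dp (a - 1) i := by
  unfold Dp
  rw [Finset.prod_range_succ', mul_comm]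
  congr 1
  · simp
  · apply Finset.prod_congr rfl
    intro j _
    congr 2
    push_cast
    ring

lemma dsc_eq_ev (a : ℤ_[p]) (i : ℕ) (x : I → LaurentSeries 𝒪) :
    dsc (tht 𝒪) Q (HahnSeries.C (z a)) i x = ev z Q (Dp a i) x := by
  induction i with
  | zero =>
    rw [Dp_zero, map_one]
    rfl
  | succ i ih =>
    rw [Dp_succ, ev_mul, ev_add, ev_X, ev_C]
    change nbv (tht 𝒪) Q (dsc (tht 𝒪) Q (HahnSeries.C (z a)) i x) +
      ((HahnSeries.C (z a) : LaurentSeries 𝒪) - (i : LaurentSeries 𝒪)) •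
        dsc (tht 𝒪) Q (HahnSeries.C (z a)) i x = _
    rw [ih]
    congr 2
    rw [map_sub, map_natCast, map_sub, map_natCast]

/-- Chu-Vandermonde for the products -/
lemma Dp_vand (r s : ℤ_[p]) (n : ℕ) :
    Dp (r + s) n = ∑ i ∈ Finset.range (n + 1), (n.choose i : Polynomial ℤ_[p]) *
      (Dp r i * Polynomial.C (∏ j ∈ Finset.range (n - i), (s - (j : ℤ_[p])))) := by
  induction n with
  | zero => simp [Dp]
  | succ n ih =>
    rw [Dp_succ, ih, Finset.mul_sum]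
    have h1 : ∀ i ∈ Finset.range (n + 1), (Polynomial.X + Polynomial.C (r + s - (n : ℤ_[p]))) *
        ((n.choose i : Polynomial ℤ_[p]) *
          (Dp r i * Polynomial.C (∏ j ∈ Finset.range (n - i), (s - (j : ℤ_[p])))))
        = (n.choose i : Polynomial ℤ_[p]) *
          (Dp r (i + 1) * Polynomial.C (∏ j ∈ Finset.range (n - i), (s - (j : ℤ_[p])))) +
          (n.choose i : Polynomial ℤ_[p]) *
          (Dp r i * Polynomial.C (∏ j ∈ Finset.range (n + 1 - i), (s - (j : ℤ_[p])))) := by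
      intro i hi
      have hi' : i ≤ n := Nat.lt_succ_iff.mp (Finset.mem_range.mp hi)
      have h2 : n + 1 - i = (n - i) + 1 := by omega
      rw [h2, Finset.prod_range_succ, Dp_succ]
      have h3 : (((n - i : ℕ) : ℤ_[p])) = (n : ℤ_[p]) - (i : ℤ_[p]) := by
        rw [Nat.cast_sub hi']
      rw [h3]
      simp only [map_mul, map_sub, map_add, map_natCast]
      ring
    rw [Finset.sum_congr rfl h1, Finset.sum_add_distrib]
    rw [Finset.sum_range_succ' (fun i => (((n + 1).choose i : ℕ) : Polynomial ℤ_[p]) *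
      (Dp r i * Polynomial.C (∏ j ∈ Finset.range (n + 1 - i), (s - (j : ℤ_[p])))))]
    have h4 : ∀ i ∈ Finset.range (n + 1), (((n + 1).choose (i + 1) : ℕ) : Polynomial ℤ_[p]) *
      (Dp r (i + 1) * Polynomial.C (∏ j ∈ Finset.range (n + 1 - (i + 1)), (s - (j : ℤ_[p]))))
      = (n.choose i : Polynomial ℤ_[p]) *
          (Dp r (i + 1) * Polynomial.C (∏ j ∈ Finset.range (n - i), (s - (j : ℤ_[p])))) +
        (n.choose (i + 1) : Polynomial ℤ_[p]) *
          (Dp r (i + 1) * Polynomial.C (∏ j ∈ Finset.range (n + 1 - (i + 1)),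
            (s - (j : ℤ_[p])))) := by
      intro i _
      rw [Nat.choose_succ_succ]
      have h5 : n + 1 - (i + 1) = n - i := by omega
      rw [h5]
      push_cast
      ring
    rw [Finset.sum_congr rfl h4, Finset.sum_add_distrib, add_assoc]
    congr 1
    rw [Finset.sum_range_succ' (fun i => ((n.choose i : ℕ) : Polynomial ℤ_[p]) *
      (Dp r i * Polynomial.C (∏ j ∈ Finset.range (n + 1 - i), (s - (j : ℤ_[p])))))]
    rw [Finset.sum_range_succ (fun i => (((n).choose (i + 1) : ℕ) : Polynomial ℤ_[p]) *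
      (Dp r (i + 1) * Polynomial.C (∏ j ∈ Finset.range (n + 1 - (i + 1)), (s - (j : ℤ_[p])))))]
    simp

end ev

section ord

variable {𝒪 : Type} [CommRing 𝒪] {I : Type} [Fintype I] [DecidableEq I]

lemma OrdGe.add {B : ℤ} {x y : LaurentSeries 𝒪} (hx : OrdGe B x) (hy : OrdGe B y) :
    OrdGe B (x + y) := by
  intro i hi
  rw [HahnSeries.coeff_add, hx i hi, hy i hi, add_zero]

lemma OrdGe.zero (B : ℤ) : OrdGe B (0 : LaurentSeries 𝒪) := by
  intro i _
  simp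

lemma OrdGe.neg {B : ℤ} {x : LaurentSeries 𝒪} (hx : OrdGe B x) : OrdGe B (-x) := by
  intro i hi
  rw [HahnSeries.coeff_neg, hx i hi, neg_zero]

lemma OrdGe.sub {B : ℤ} {x y : LaurentSeries 𝒪} (hx : OrdGe B x) (hy : OrdGe B y) :
    OrdGe B (x - y) := by
  intro i hi
  rw [HahnSeries.coeff_sub, hx i hi, hy i hi, sub_zero]

lemma OrdGe.mul {A B : ℤ} {x y : LaurentSeries 𝒪} (hx : OrdGe A x) (hy : OrdGe B y) :
    OrdGe (A + B) (x * y) := by
  intro i hi
  rw [HahnSeries.coeff_mul]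
  apply Finset.sum_eq_zero
  intro ij hij
  simp only [Finset.mem_antidiagonal] at hij
  obtain ⟨_, _, h3⟩ := hij
  by_cases h : ij.1 < A
  · rw [hx _ h, zero_mul]
  · rw [hy _ (by omega), mul_zero]

lemma OrdGe.mono {A B : ℤ} (h : A ≤ B) {x : LaurentSeries 𝒪} (hx : OrdGe B x) : OrdGe A x :=
  fun i hi => hx i (lt_of_lt_of_le hi h)

lemma OrdGe.Cmul {B : ℤ} {x : LaurentSeries 𝒪} (c : 𝒪) (hx : OrdGe B x) :
    OrdGe B (HahnSeries.C c * x) := by
  intro i hi
  rw [coeff_Cmul, hx i hi, mul_zero]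

lemma OrdGe.sum {ι : Type} {B : ℤ} (s : Finset ι) (f : ι → LaurentSeries 𝒪)
    (h : ∀ i ∈ s, OrdGe B (f i)) : OrdGe B (∑ i ∈ s, f i) := by
  classical
  induction s using Finset.induction_on with
  | empty => rw [Finset.sum_empty]; exact OrdGe.zero B
  | insert a s ha ih =>
    rw [Finset.sum_insert ha]
    exact OrdGe.add (h a (Finset.mem_insert_self a s))
      (ih fun i hi => h i (Finset.mem_insert_of_mem hi))

lemma OrdGe.tht {B : ℤ} {x : LaurentSeries 𝒪} (hx : OrdGe B x) : OrdGe B (tht 𝒪 x) := by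
  intro i hi
  rw [tht_coeff, hx i hi, mul_zero]

lemma ordGe_nbv {Q : Matrix I I (LaurentSeries 𝒪)} (hQ : PolF Q) {B : ℤ}
    {x : I → LaurentSeries 𝒪} (hx : ∀ k, OrdGe B (x k)) : ∀ k, OrdGe B (nbv (tht 𝒪) Q x k) := by
  intro k
  change OrdGe B (tht 𝒪 (x k) + (Q.mulVec x) k)
  apply OrdGe.add (OrdGe.tht (hx k))
  unfold Matrix.mulVec dotProduct
  apply OrdGe.sum
  intro i _
  have := OrdGe.mul (hQ k i) (hx i)
  rwa [zero_add] at this

lemma ordGe_Csmul {B : ℤ} (c : 𝒪) {x : I → LaurentSeries 𝒪} (hx : ∀ k, OrdGe B (x k)) :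
    ∀ k, OrdGe B (((HahnSeries.C c : LaurentSeries 𝒪) • x) k) := by
  intro k
  exact OrdGe.Cmul c (hx k)

lemma ordGe_ev {p : ℕ} [Fact p.Prime] (z : ℤ_[p] →+* 𝒪) {Q : Matrix I I (LaurentSeries 𝒪)}
    (hQ : PolF Q) (P : Polynomial ℤ_[p]) {B : ℤ}
    {x : I → LaurentSeries 𝒪} (hx : ∀ k, OrdGe B (x k)) : ∀ k, OrdGe B (ev z Q P x k) := by
  induction P using Polynomial.induction_on' with
  | add P R hP hR =>
    intro k
    rw [ev_add]
    exact OrdGe.add (hP k) (hR k)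
  | monomial n a =>
    rw [← Polynomial.C_mul_X_pow_eq_monomial, ev_mul, ev_C]
    apply ordGe_Csmul
    induction n with
    | zero => rw [pow_zero, map_one]; exact hx
    | succ n ih =>
      rw [pow_succ', ev_mul, ev_X]
      exact ordGe_nbv hQ ih

end ord

section tf2

variable {p : ℕ} [Fact p.Prime] {𝒪 : Type} [CommRing 𝒪] {z : ℤ_[p] →+* 𝒪} {φ : 𝒪 →+* 𝒪}
variable {I : Type} [Fintype I] [DecidableEq I]

lemma nat_smul_inj (h : OBase p z φ) {n : ℕ} (hn : n ≠ 0) {x y : I → LaurentSeries 𝒪}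
    (hxy : (n : LaurentSeries 𝒪) • x = (n : LaurentSeries 𝒪) • y) : x = y := by
  funext k
  ext m
  have h1 := congrArg (fun v : I → LaurentSeries 𝒪 => (v k).coeff m) hxy
  simp only [Pi.smul_apply, smul_eq_mul, coeff_nat_mul] at h1
  have h2 := nat_tf h hn ((x k).coeff m - (y k).coeff m) (by rw [mul_sub, h1, sub_self])
  exact sub_eq_zero.mp h2

lemma ordGe_of_smul (h : OBase p z φ) {n : ℕ} (hn : n ≠ 0) {B : ℤ} {x : I → LaurentSeries 𝒪}
    (hx : ∀ k, OrdGe B (((n : LaurentSeries 𝒪) • x) k)) : ∀ k, OrdGe B (x k) := by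
  intro k i hi
  have h1 := hx k i hi
  rw [Pi.smul_apply, smul_eq_mul, coeff_nat_mul] at h1
  exact nat_tf h hn _ h1

end tf2

end Pool.Agent.Helper95_CM.H69
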