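import Pool.Agent.Helper69_CM.Base

/-!
# DIVOP: the divided power operators (helper69)
-/

set_option autoImplicit false
set_option linter.unusedSectionVars false

noncomputable section

namespace Pool.Agent.Helper95_CM.H69

open Pool.Agent.Helper95_CM

theorem divop (hG : GrowStmt) : DivopStmt := by
  intro p _ 𝒪 _ z φ I _ _ L Q hO hF i a hi
  choose g hg using fun x => hG p 𝒪 z φ I L Q hO hF i a x hi
  have hfac : i.factorial ≠ 0 := Nat.factorial_ne_zero i
  have hadd : ∀ x y, dsc (tht 𝒪) Q (HahnSeries.C (z a)) i (x + y) =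
      dsc (tht 𝒪) Q (HahnSeries.C (z a)) i x + dsc (tht 𝒪) Q (HahnSeries.C (z a)) i y := by
    intro x y
    simp only [dsc_eq_ev, map_add]
  have hnb : ∀ x, dsc (tht 𝒪) Q (HahnSeries.C (z a)) i (nbv (tht 𝒪) Q x) =
      nbv (tht 𝒪) Q (dsc (tht 𝒪) Q (HahnSeries.C (z a)) i x) := by
    intro x
    rw [dsc_eq_ev, dsc_eq_ev, ← ev_X z Q x, ← ev_mul, ← ev_X z Q, ← ev_mul, mul_comm]
  have hpow : ∀ (x : I → LaurentSeries 𝒪), (p : LaurentSeries 𝒪) ^ (2 * L) • x =
      (HahnSeries.C ((p : 𝒪) ^ (2 * L)) : LaurentSeries 𝒪) • x := by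
    intro x
    rw [map_pow, map_natCast]
  refine ⟨⟨⟨g, ?_⟩, ?_⟩, hg, ?_, ?_⟩
  · apply nat_smul_inj hO hfac
    rw [hg, smul_zero, dsc_eq_ev, map_zero, smul_zero]
  · intro x y
    apply nat_smul_inj hO hfac
    change _ • g (x + y) = _ • (g x + g y)
    rw [hg, smul_add, hg, hg, hadd, smul_add]
  · intro x
    apply nat_smul_inj hO hfac
    change _ • g (nbv (tht 𝒪) Q x) = _ • nbv (tht 𝒪) Q (g x)
    rw [hg, ← nbv_natsmul, hg, hnb, hpow, hpow, nbv_Csmul]
  · intro hQ B x hx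
    apply ordGe_of_smul hO hfac
    intro k
    change OrdGe B (((i.factorial : LaurentSeries 𝒪) • g x) k)
    rw [hg, hpow, dsc_eq_ev]
    exact ordGe_Csmul _ (ordGe_ev z hQ _ hx) k

end Pool.Agent.Helper95_CM.H69
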