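import Pool.Agent.Helper69_CM.Lift

/-!
# GAUK: gauge and duality invariance of `FrobK` (helper69)
-/

set_option autoImplicit false
set_option linter.unusedSectionVars false

noncomputable section

namespace Pool.Agent.Helper95_CM.H69

open Pool.Agent.Helper95_CM

theorem gauk (hGau : GauStmt) (hDual : DualStmt) (hSpg : SpgStmt) (hOpc : OpcStmt) :
    GaukStmt := by
  intro q K _ _ I _ _ L Q Q' U Ui hF hU hUi hG
  obtain ⟨⟨S, hS⟩, -, -, -, -, -, hth, -⟩ := hSpg q K
  constructor
  · constructor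
    · intro i j
      have h1 : Q' = Ui * (U.map (thLt q K) + Q * U) := by
        rw [hG.eq, ← Matrix.mul_assoc, hG.inv', Matrix.one_mul]
      rw [h1, Matrix.mul_apply, ← hS]
      apply Subfield.sum_mem
      intro k _
      apply Subfield.mul_mem
      · exact (hS _).mpr (hUi i k)
      · rw [Matrix.add_apply, Matrix.mul_apply, Matrix.map_apply]
        apply Subfield.add_mem
        · exact (hS _).mpr (hth _ (hU k j))
        · apply Subfield.sum_mem
          intro l _
          exact Subfield.mul_mem _ ((hS _).mpr (hF.1 k l)) ((hS _).mpr (hU l j))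
    · intro N
      obtain ⟨C, p0, hC⟩ := hF.2 N
      obtain ⟨p1, hp1⟩ := exists_lift (fun i j => (hF.1 i j).1)
      obtain ⟨p2, hp2⟩ := exists_lift (fun i j => (hU i j).1)
      obtain ⟨p3, hp3⟩ := exists_lift (fun i j => (hUi i j).1)
      obtain ⟨e1, he1⟩ := exists_pol U
      obtain ⟨e2, he2⟩ := exists_pol Ui
      refine ⟨C + (e1 + e2), max (max p0 p1) (max p2 p3), ?_⟩
      intro p _ hp ι Q1' hQ1'
      have hp' : 0 < p := (Fact.out : p.Prime).pos
      obtain ⟨Q1, hQ1⟩ := hp1 p (le_trans (le_trans (le_max_right _ _) (le_max_left _ _)) hp) ι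
      obtain ⟨U1, hU1⟩ := hp2 p (le_trans (le_trans (le_max_left _ _) (le_max_right _ _)) hp) ι
      obtain ⟨U1i, hU1i⟩ := hp3 p (le_trans (le_trans (le_max_right _ _) (le_max_right _ _)) hp) ι
      have hG1 := gauge_lift hOpc hQ1 hQ1' hU1 hU1i hG
      obtain ⟨h1, P, F, hPF, hP, hFp⟩ :=
        hC p (le_trans (le_trans (le_max_left _ _) (le_max_left _ _)) hp) ι Q1 hQ1
      have hO := hOpc q ℤ_[p] ℤ_[p] (RingHom.id _) p hp'
      have hder : IsDer (R := LL q ℤ_[p]) (thLt q ℤ_[p]) := hO.2.2.2.2.2.2.2.2.1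
      have hcomm : ∀ x, thLt q ℤ_[p] (phL q ℤ_[p] p x) =
          (p : LL q ℤ_[p]) * phL q ℤ_[p] p (thLt q ℤ_[p] x) := hO.2.2.2.2.2.2.1
      have hPU1 := lift_pol hU1 he1
      have hPU1i := lift_pol hU1i he2
      refine ⟨?_, U1i.map (phL q ℤ_[p] p) * P * U1, U1i * F * U1.map (phL q ℤ_[p] p), ?_, ?_, ?_⟩
      · intro N'
        obtain ⟨P', F', hPF'⟩ := h1 N'
        exact ⟨_, _, hGau I (LL q ℤ_[p]) (phL q ℤ_[p] p) (thLt q ℤ_[p]) p N' L Q1 Q1' P' F' U1 U1i
          hder hcomm hPF' hG1⟩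
      · exact hGau I (LL q ℤ_[p]) (phL q ℤ_[p] p) (thLt q ℤ_[p]) p N L Q1 Q1' P F U1 U1i
          hder hcomm hPF hG1
      · have h2 := polLe_mul (polLe_mul (polLe_phT hp' (phO q ℤ_[p] p) hPU1i) hP) hPU1
        apply polLe_mono _ h2
        have : 1 ≤ p := hp'
        nlinarith
      · have h2 := polLe_mul (polLe_mul hPU1i hFp) (polLe_phT hp' (phO q ℤ_[p] p) hPU1)
        apply polLe_mono _ h2
        have : 1 ≤ p := hp'
        nlinarith
  · constructor
    · intro i j
      rw [Matrix.neg_apply, Matrix.transpose_apply, ← hS]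
      exact Subfield.neg_mem _ ((hS _).mpr (hF.1 j i))
    · intro N
      obtain ⟨C, p0, hC⟩ := hF.2 N
      refine ⟨C, p0, ?_⟩
      intro p _ hp ι Q1' hQ1'
      have hQ1 : LiftM ι Q (-Q1'.transpose) := by
        unfold LiftM at hQ1' ⊢
        ext1 i j
        have h1 := congrFun (congrFun hQ1' j) i
        simp only [Matrix.map_apply, Matrix.neg_apply, Matrix.transpose_apply, map_neg] at h1 ⊢
        rw [← h1, neg_neg]
      obtain ⟨h1, P, F, hPF, hP, hFp⟩ := hC p hp ι _ hQ1
      have hdd : -(-Q1'.transpose).transpose = Q1' := by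
        rw [Matrix.transpose_neg, neg_neg, Matrix.transpose_transpose]
      refine ⟨?_, F.transpose, P.transpose, ?_, fun i j => hFp j i, fun i j => hP j i⟩
      · intro N'
        obtain ⟨P', F', hPF'⟩ := h1 N'
        have h3 := hDual I (LL q ℤ_[p]) (phL q ℤ_[p] p) (thLt q ℤ_[p]) p N' L _ P' F' hPF'
        rw [hdd] at h3
        exact ⟨_, _, h3⟩
      · have h3 := hDual I (LL q ℤ_[p]) (phL q ℤ_[p] p) (thLt q ℤ_[p]) p N L _ P F hPF
        rw [hdd] at h3
        exact h3

end Pool.Agent.Helper95_CM.H69
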