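import Pool.Agent.Helper95_CM.StK
import Pool.Agent.Helper69_CM.Base

/-!
# Lifting lemmas for the block FK (helper69)
-/

set_option autoImplicit false
set_option linter.unusedSectionVars false

noncomputable section

namespace Pool.Agent.Helper95_CM.H69

open Pool.Agent.Helper95_CM

section inj

variable {G : Type} [AddCommGroup G] [LinearOrder G] [IsOrderedAddMonoid G]

lemma hmap_inj {R S : Type} [CommRing R] [CommRing S] {f : R →+* S}
    (hf : Function.Injective f) :
    Function.Injective (hmap f : HahnSeries G R →+* HahnSeries G S) := by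
  intro x y h
  ext g
  have := congrArg (fun v : HahnSeries G S => v.coeff g) h
  simp only [hmap_coeff] at this
  exact hf this

end inj

variable {q p : ℕ} [Fact p.Prime]

lemma zq_inj : Function.Injective (zq p) := FaithfulSMul.algebraMap_injective _ _

lemma mC_inj : Function.Injective (mC q (zq p)) := hmap_inj zq_inj

lemma mO_inj : Function.Injective (mO q (zq p)) := hmap_inj mC_inj

lemma mL_inj : Function.Injective (mL q (zq p)) := hmap_inj mO_inj

lemma mL_coeff {R S : Type} [CommRing R] [CommRing S] (f : R →+* S) (x : LL q R) (m : ℤ) :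
    (mL q f x).coeff m = mO q f (x.coeff m) := rfl

variable {K : Type} [Field K]

lemma lift_ord {ι : K →+* ℚ_[p]} {x : LL q K} {y : LL q ℤ_[p]}
    (h : mL q ι x = mL q (zq p) y) {m : ℤ} (hx : OrdGe m x) : OrdGe m y := by
  intro i hi
  apply mO_inj (q := q)
  have := congrArg (fun v : LL q ℚ_[p] => v.coeff i) h
  simp only [mL_coeff] at this
  rw [← this, hx i hi, map_zero, map_zero]

variable {I J : Type} [Fintype I] [Fintype J] [DecidableEq I] [DecidableEq J]

lemma map_inj_mL {X Y : Matrix I J (LL q ℤ_[p])}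
    (h : X.map (mL q (zq p)) = Y.map (mL q (zq p))) : X = Y := by
  ext1 i j
  have := congrFun (congrFun h i) j
  simp only [Matrix.map_apply] at this
  exact mL_inj this

/-- lifts exist for large primes -/
lemma exists_lift {U : Matrix I J (LL q K)} (hU : ∀ i j, SprL (U i j)) :
    ∃ p0 : ℕ, ∀ (p : ℕ) [Fact p.Prime], p0 ≤ p → ∀ ι : K →+* ℚ_[p],
      ∃ U' : Matrix I J (LL q ℤ_[p]), LiftM ι U U' := by
  choose p0 hp0 using hU
  refine ⟨Finset.univ.sup fun i => Finset.univ.sup fun j => p0 i j, ?_⟩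
  intro p _ hp ι
  have h : ∀ i j, ∃ y : LL q ℤ_[p], mL q ι (U i j) = mL q (zq p) y := by
    intro i j
    apply hp0 i j p _ ι
    refine le_trans ?_ hp
    refine le_trans ?_ (Finset.le_sup (f := fun i => Finset.univ.sup fun j => p0 i j)
      (Finset.mem_univ i))
    exact Finset.le_sup (f := fun j => p0 i j) (Finset.mem_univ j)
  choose U' hU' using h
  refine ⟨Matrix.of U', ?_⟩
  unfold LiftM
  ext1 i j
  simp only [Matrix.map_apply, Matrix.of_apply]
  exact hU' i j

/-- pole bounds exist -/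
lemma exists_pol {𝒪 : Type} [CommRing 𝒪] (U : Matrix I J (LaurentSeries 𝒪)) :
    ∃ e : ℕ, PolLe e U := by
  have h : ∀ i j, ∃ e : ℕ, OrdGe (-(e : ℤ)) (U i j) := by
    intro i j
    refine ⟨((U i j).order).natAbs, ?_⟩
    intro m hm
    apply HahnSeries.coeff_eq_zero_of_lt_order
    omega
  choose e he using h
  refine ⟨Finset.univ.sup fun i => Finset.univ.sup fun j => e i j, ?_⟩
  intro i j
  apply OrdGe.mono _ (he i j)
  have h1 : e i j ≤ Finset.univ.sup fun i => Finset.univ.sup fun j => e i j := by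
    refine le_trans ?_ (Finset.le_sup (f := fun i => Finset.univ.sup fun j => e i j)
      (Finset.mem_univ i))
    exact Finset.le_sup (f := fun j => e i j) (Finset.mem_univ j)
  omega

lemma lift_pol {ι : K →+* ℚ_[p]} {U : Matrix I J (LL q K)} {U' : Matrix I J (LL q ℤ_[p])}
    (h : LiftM ι U U') {e : ℕ} (hU : PolLe e U) : PolLe e U' := by
  intro i j
  have h1 : mL q ι (U i j) = mL q (zq p) (U' i j) := by
    have := congrFun (congrFun h i) j
    simpa only [Matrix.map_apply] using this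
  exact lift_ord h1 (hU i j)

lemma lift_polF {ι : K →+* ℚ_[p]} {U : Matrix I J (LL q K)} {U' : Matrix I J (LL q ℤ_[p])}
    (h : LiftM ι U U') (hU : PolF U) : PolF U' := by
  intro i j
  have h1 : mL q ι (U i j) = mL q (zq p) (U' i j) := by
    have := congrFun (congrFun h i) j
    simpa only [Matrix.map_apply] using this
  exact lift_ord h1 (hU i j)

lemma gauge_lift (hOPC : OpcStmt) {ι : K →+* ℚ_[p]} {Q Q' U Ui : Matrix I I (LL q K)}
    {Q1 Q1' U1 U1i : Matrix I I (LL q ℤ_[p])}
    (hQ : LiftM ι Q Q1) (hQ' : LiftM ι Q' Q1') (hU : LiftM ι U U1) (hUi : LiftM ι Ui U1i)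
    (hG : Gauge (thLt q K) U Ui Q Q') : Gauge (thLt q ℤ_[p]) U1 U1i Q1 Q1' := by
  have hp : 0 < p := (Fact.out : p.Prime).pos
  unfold LiftM at hQ hQ' hU hUi
  constructor
  · apply map_inj_mL
    rw [Matrix.map_mul, ← hU, ← hUi, ← Matrix.map_mul, hG.inv]
    rw [Matrix.map_one _ (map_zero _) (map_one _), Matrix.map_one _ (map_zero _) (map_one _)]
  · apply map_inj_mL
    rw [Matrix.map_mul, ← hU, ← hUi, ← Matrix.map_mul, hG.inv']
    rw [Matrix.map_one _ (map_zero _) (map_one _), Matrix.map_one _ (map_zero _) (map_one _)]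
  · apply map_inj_mL
    have h1 : (U1.map (thLt q ℤ_[p])).map (mL q (zq p)) =
        (U.map (thLt q K)).map (mL q ι) := by
      ext1 i j
      simp only [Matrix.map_apply]
      rw [(hOPC q ℤ_[p] ℚ_[p] (zq p) p hp).2.1, (hOPC q K ℚ_[p] ι p hp).2.1]
      have := congrFun (congrFun hU i) j
      simp only [Matrix.map_apply] at this
      rw [this]
    rw [Matrix.map_add _ (map_add _), h1, Matrix.map_mul, ← hQ, ← hU, ← Matrix.map_mul,
      ← Matrix.map_add _ (map_add _), hG.eq, Matrix.map_mul, hQ', hU, Matrix.map_mul]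

/-- pole orders of products -/
lemma polLe_mul {𝒪 : Type} [CommRing 𝒪] {a b : ℕ} {X Y : Matrix I I (LaurentSeries 𝒪)}
    (hX : PolLe a X) (hY : PolLe b Y) : PolLe (a + b) (X * Y) := by
  intro i j
  rw [Matrix.mul_apply]
  apply OrdGe.sum
  intro k _
  have := OrdGe.mul (hX i k) (hY k j)
  apply OrdGe.mono _ this
  push_cast
  omega

lemma ordGe_phT {𝒪 : Type} [CommRing 𝒪] (hp : 0 < p) (φ : 𝒪 →+* 𝒪) {x : LaurentSeries 𝒪} {a : ℤ}
    (hx : OrdGe a x) : OrdGe ((p : ℤ) * a) (phT p φ x) := by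
  intro m hm
  by_cases hd : (p : ℤ) ∣ m
  · obtain ⟨m', rfl⟩ := hd
    rw [phT_coeff hp, hx m' (lt_of_mul_lt_mul_left hm (by positivity)), map_zero]
  · exact phT_coeff_ne hp φ x m hd

lemma polLe_phT {𝒪 : Type} [CommRing 𝒪] (hp : 0 < p) (φ : 𝒪 →+* 𝒪) {a : ℕ}
    {X : Matrix I I (LaurentSeries 𝒪)} (hX : PolLe a X) : PolLe (p * a) (X.map (phT p φ)) := by
  intro i j
  rw [Matrix.map_apply]
  have := ordGe_phT hp φ (hX i j)
  apply OrdGe.mono _ this
  push_cast
  linarith

lemma polLe_mono {𝒪 : Type} [CommRing 𝒪] {a b : ℕ} (h : a ≤ b)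
    {X : Matrix I I (LaurentSeries 𝒪)} (hX : PolLe a X) : PolLe b X := by
  intro i j
  apply OrdGe.mono _ (hX i j)
  omega

end Pool.Agent.Helper95_CM.H69
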