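import Pool.Agent.Helper69_CM.Wop

/-!
# PCURV: nilpotent p-curvature (helper69)
-/

set_option autoImplicit false
set_option linter.unusedSectionVars false

noncomputable section

namespace Pool.Agent.Helper95_CM.H69

open Pool.Agent.Helper95_CM

section poly
open Polynomial

lemma prod_zmod (p : ℕ) [Fact p.Prime] :
    ∏ a : ZMod p, (X - C a : (ZMod p)[X]) = X ^ p - X := by
  have hp : p.Prime := Fact.out
  have hdeg : (X ^ p - X : (ZMod p)[X]).natDegree = p :=
    FiniteField.X_pow_card_sub_X_natDegree_eq _ hp.one_lt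
  have hmon : (X ^ p - X : (ZMod p)[X]).Monic := by
    apply Polynomial.monic_X_pow_sub
    rw [degree_X]
    exact_mod_cast hp.one_lt
  have hroots : (X ^ p - X : (ZMod p)[X]).roots = Finset.univ.val := by
    have := FiniteField.roots_X_pow_card_sub_X (ZMod p)
    rwa [ZMod.card] at this
  have h := Polynomial.prod_multiset_X_sub_C_of_monic_of_roots_card_eq hmon (by
    rw [hroots, hdeg]
    change (Finset.univ : Finset (ZMod p)).card = p
    rw [Finset.card_univ, ZMod.card])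
  rw [hroots] at h
  exact h

lemma prod_range_zmod (p : ℕ) [Fact p.Prime] (k : ℕ) :
    ∏ j ∈ Finset.range p, (X - C (((p * k + j : ℕ) : ZMod p)) : (ZMod p)[X]) = X ^ p - X := by
  rw [← prod_zmod]
  have hp : 0 < p := (Fact.out : p.Prime).pos
  apply Finset.prod_bij (fun (j : ℕ) _ => (j : ZMod p))
  · intro j _
    exact Finset.mem_univ _
  · intro a ha b hb h
    have := (ZMod.natCast_eq_natCast_iff' a b p).mp h
    rwa [Nat.mod_eq_of_lt (Finset.mem_range.mp ha), Nat.mod_eq_of_lt (Finset.mem_range.mp hb)]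
      at this
  · intro b _
    refine ⟨b.val, Finset.mem_range.mpr (ZMod.val_lt b), ?_⟩
    exact ZMod.natCast_zmod_val b
  · intro j _
    push_cast
    simp

lemma prod_range_mul_zmod (p : ℕ) [Fact p.Prime] (m : ℕ) :
    ∏ j ∈ Finset.range (p * m), (X - C ((j : ℕ) : ZMod p) : (ZMod p)[X]) = (X ^ p - X) ^ m := by
  induction m with
  | zero => simp
  | succ m ih =>
    rw [mul_add, mul_one, Finset.prod_range_add, ih, prod_range_zmod, pow_succ]

lemma exists_R (p : ℕ) [Fact p.Prime] (m : ℕ) :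
    ∃ R : ℤ[X], (X ^ p - X) ^ m = ∏ j ∈ Finset.range (p * m), (X - C ((j : ℕ) : ℤ)) +
      C (p : ℤ) * R := by
  have h : C (p : ℤ) ∣ (X ^ p - X : ℤ[X]) ^ m - ∏ j ∈ Finset.range (p * m),
      (X - C ((j : ℕ) : ℤ)) := by
    rw [Polynomial.C_dvd_iff_dvd_coeff]
    intro i
    rw [← ZMod.intCast_zmod_eq_zero_iff_dvd, ← eq_intCast (Int.castRingHom (ZMod p)),
      ← Polynomial.coeff_map, Polynomial.map_sub, Polynomial.map_prod]
    simp only [Polynomial.map_sub, Polynomial.map_pow, Polynomial.map_X, Polynomial.map_C]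
    have := prod_range_mul_zmod p m
    simp only [eq_intCast, Int.cast_natCast]
    rw [this, sub_self, Polynomial.coeff_zero]
  obtain ⟨R, hR⟩ := h
  exact ⟨R, by rw [← hR]; ring⟩

lemma exists_R' (p : ℕ) [Fact p.Prime] (m : ℕ) :
    ∃ R : ℤ_[p][X], (X ^ p - X) ^ m = Dp 0 (p * m) + ((p : ℕ) : ℤ_[p][X]) * R := by
  obtain ⟨R, hR⟩ := exists_R p m
  refine ⟨R.map (Int.castRingHom ℤ_[p]), ?_⟩
  have h := congrArg (Polynomial.map (Int.castRingHom ℤ_[p])) hR
  simp only [Polynomial.map_sub, Polynomial.map_pow, Polynomial.map_X, Polynomial.map_add,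
    Polynomial.map_mul, Polynomial.map_C, Polynomial.map_prod] at h
  rw [h]
  unfold Dp
  congr 1
  apply Finset.prod_congr rfl
  intro j _
  simp [sub_eq_add_neg]

end poly

lemma fac_eq (p : ℕ) [Fact p.Prime] (m : ℕ) (hm : m < p) :
    ∃ u : ℤ_[p], IsUnit u ∧ ((p * m).factorial : ℤ_[p]) = (p : ℤ_[p]) ^ m * u := by
  have hp : p.Prime := Fact.out
  obtain ⟨e, n', hn', he⟩ := Nat.exists_eq_pow_mul_and_not_dvd
    (Nat.factorial_ne_zero (p * m)) p hp.ne_one
  have h1 : padicValNat p (p * m).factorial = e := by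
    rw [he, padicValNat.mul (pow_ne_zero _ hp.ne_zero) (by rintro rfl; exact hn' (dvd_zero _)),
      padicValNat.prime_pow, padicValNat.eq_zero_of_not_dvd hn', add_zero]
  have h2 : padicValNat p (p * m).factorial = m := by
    rw [padicValNat_factorial_mul, padicValNat.eq_zero_of_not_dvd, zero_add]
    rw [hp.dvd_factorial]
    omega
  have h3 : e = m := by rw [← h1, h2]
  subst h3
  refine ⟨(n' : ℤ_[p]), isUnit_nat hn', ?_⟩
  rw [he]
  push_cast
  rfl

theorem pcurv (hG : GrowStmt) : PcurvStmt := by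
  intro p _ 𝒪 _ z φ I _ _ L Q hO hF hL x
  have hp : p.Prime := Fact.out
  have hlt : p * (2 * L + 1) < p ^ 2 := by
    rw [pow_two]
    exact mul_lt_mul_of_pos_left hL hp.pos
  obtain ⟨y, hy⟩ := hG p 𝒪 z φ I L Q hO hF (p * (2 * L + 1)) 0 x hlt
  obtain ⟨R, hR⟩ := exists_R' p (2 * L + 1)
  obtain ⟨u, hu, hfac⟩ := fac_eq p (2 * L + 1) hL
  rw [dsc_eq_ev] at hy
  have h1 : ((nbE (tht 𝒪) Q ^ p - nbE (tht 𝒪) Q) ^ (2 * L + 1)) x =
      ev z Q ((Polynomial.X ^ p - Polynomial.X) ^ (2 * L + 1)) x := by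
    rw [map_pow, map_sub, map_pow]
    have : ev z Q Polynomial.X = nbE (tht 𝒪) Q := by
      unfold ev
      exact Polynomial.eval₂_X _ _
    rw [this]
  have h2 : ((p * (2 * L + 1)).factorial : LaurentSeries 𝒪) =
      (p : LaurentSeries 𝒪) ^ (2 * L) * ((p : LaurentSeries 𝒪) * HahnSeries.C (z u)) := by
    have h3 := congrArg (fun c : ℤ_[p] => (HahnSeries.C (z c) : LaurentSeries 𝒪)) hfac
    simp only [map_mul, map_natCast, map_pow] at h3
    rw [h3]
    ring
  have h4 : ev z Q (Dp 0 (p * (2 * L + 1))) x =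
      (p : LaurentSeries 𝒪) • ((HahnSeries.C (z u) : LaurentSeries 𝒪) • y) := by
    apply nat_smul_inj hO (n := p ^ (2 * L)) (pow_ne_zero _ hp.ne_zero)
    rw [Nat.cast_pow, ← hy, h2, mul_smul, mul_smul]
  refine ⟨(HahnSeries.C (z u) : LaurentSeries 𝒪) • y + ev z Q R x, ?_⟩
  rw [h1, hR, ev_add, h4, ev_natCast_mul, smul_add]

end Pool.Agent.Helper95_CM.H69
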