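import Pool.Agent.Helper69_CM.Base

/-!
# TRANS: transfer (helper69)
-/

set_option autoImplicit false
set_option linter.unusedSectionVars false

noncomputable section

namespace Pool.Agent.Helper95_CM.H69

open Pool.Agent.Helper95_CM

section

variable {𝒪 : Type} [CommRing 𝒪] {I : Type} [Fintype I] [DecidableEq I]

/-- pole-free vectors modulo `p^N` -/
def M0 (I : Type) [Fintype I] [DecidableEq I] (𝒪 : Type) [CommRing 𝒪] (p N : ℕ) :
    AddSubgroup (I → LaurentSeries 𝒪) where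
  carrier := {x | ∃ x0 x1 : I → LaurentSeries 𝒪, (∀ k, OrdGe 0 (x0 k)) ∧
    x = x0 + (p : LaurentSeries 𝒪) ^ N • x1}
  zero_mem' := ⟨0, 0, fun k => OrdGe.zero 0, by simp⟩
  add_mem' := by
    rintro x y ⟨x0, x1, h1, rfl⟩ ⟨y0, y1, h2, rfl⟩
    refine ⟨x0 + y0, x1 + y1, fun k => OrdGe.add (h1 k) (h2 k), ?_⟩
    rw [smul_add]
    abel
  neg_mem' := by
    rintro x ⟨x0, x1, h1, rfl⟩
    refine ⟨-x0, -x1, fun k => OrdGe.neg (h1 k), ?_⟩
    rw [smul_neg]
    abel

lemma mem_M0 {p N : ℕ} {x : I → LaurentSeries 𝒪} : x ∈ M0 I 𝒪 p N ↔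
    ∃ x0 x1 : I → LaurentSeries 𝒪, (∀ k, OrdGe 0 (x0 k)) ∧
    x = x0 + (p : LaurentSeries 𝒪) ^ N • x1 := Iff.rfl

lemma natpow_smul (p N : ℕ) (x : I → LaurentSeries 𝒪) :
    (p : LaurentSeries 𝒪) ^ N • x = (p ^ N : ℕ) • x := by
  rw [← Nat.cast_pow, Nat.cast_smul_eq_nsmul]

lemma M0_map {p N : ℕ} (G : (I → LaurentSeries 𝒪) →+ (I → LaurentSeries 𝒪))
    (hG : ∀ x : I → LaurentSeries 𝒪, (∀ k, OrdGe 0 (x k)) → ∀ k, OrdGe 0 (G x k))
    {x : I → LaurentSeries 𝒪} (hx : x ∈ M0 I 𝒪 p N) : G x ∈ M0 I 𝒪 p N := by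
  obtain ⟨x0, x1, h1, rfl⟩ := mem_M0.mp hx
  refine mem_M0.mpr ⟨G x0, G x1, hG x0 h1, ?_⟩
  rw [map_add, natpow_smul, map_nsmul, natpow_smul]

lemma M0_Csmul {p N : ℕ} (c : 𝒪) {x : I → LaurentSeries 𝒪} (hx : x ∈ M0 I 𝒪 p N) :
    (HahnSeries.C c : LaurentSeries 𝒪) • x ∈ M0 I 𝒪 p N := by
  obtain ⟨x0, x1, h1, rfl⟩ := mem_M0.mp hx
  refine mem_M0.mpr ⟨(HahnSeries.C c : LaurentSeries 𝒪) • x0,
    (HahnSeries.C c : LaurentSeries 𝒪) • x1, ordGe_Csmul c h1, ?_⟩
  rw [smul_add, smul_comm]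

lemma M0_of_ord {p N : ℕ} {x : I → LaurentSeries 𝒪} (hx : ∀ k, OrdGe 0 (x k)) :
    x ∈ M0 I 𝒪 p N := mem_M0.mpr ⟨x, 0, hx, by simp⟩

/-- nilpotency argument -/
lemma nilp {V : Type} [AddCommGroup V] (M : AddSubgroup V) (T T' : V →+ V) (a0 : ℕ)
    (hT : ∀ x, x ∈ M → T x ∈ M) (hT' : ∀ x, x ∈ M → T' x ∈ M)
    (hc : ∀ x, T (T' x) = T' (T x)) (h0 : ∀ x, T x = a0 • x + T' x) :
    ∀ (s a b : ℕ), a + b = s → ∀ x : V, (T^[a]) x ∈ M → (T'^[b]) x ∈ M →
      (a0 ^ (a + b - 1)) • x ∈ M := by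
  intro s
  induction s with
  | zero =>
    intro a b hab x h1 _
    have : a = 0 := by omega
    subst this
    exact AddSubgroup.nsmul_mem _ h1 _
  | succ s ih =>
    intro a b hab x h1 h2
    rcases a with _ | a
    · exact AddSubgroup.nsmul_mem _ h1 _
    rcases b with _ | b
    · exact AddSubgroup.nsmul_mem _ h2 _
    have hcT : ∀ n : ℕ, ∀ y, (T'^[n]) (T y) = T ((T'^[n]) y) := by
      intro n
      induction n with
      | zero => intro y; rfl
      | succ n ihn =>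
        intro y
        rw [Function.iterate_succ_apply', Function.iterate_succ_apply', ihn, hc]
    have hcT' : ∀ n : ℕ, ∀ y, (T^[n]) (T' y) = T' ((T^[n]) y) := by
      intro n
      induction n with
      | zero => intro y; rfl
      | succ n ihn =>
        intro y
        rw [Function.iterate_succ_apply', Function.iterate_succ_apply', ihn, hc]
    have e1 := ih a (b + 1) (by omega) (T x) (by rwa [Function.iterate_succ_apply] at h1)
      (by rw [hcT]; exact hT _ h2)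
    have e2 := ih (a + 1) b (by omega) (T' x) (by rw [hcT']; exact hT' _ h1)
      (by rwa [Function.iterate_succ_apply] at h2)
    have e3 := AddSubgroup.sub_mem _ e1 e2
    have h3 : a + (b + 1) - 1 = a + b := by omega
    have h4 : a + 1 + b - 1 = a + b := by omega
    have h5 : a + 1 + (b + 1) - 1 = (a + b) + 1 := by omega
    rw [h3, h4, ← nsmul_sub, h0, add_sub_cancel_right] at e3
    rw [h5, pow_succ, mul_smul]
    exact e3

end

/-- `F` applied to a constant vector -/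
def Fd {𝒪 : Type} [CommRing 𝒪] {I : Type} [Fintype I] [DecidableEq I]
    (F : Matrix I I (LaurentSeries 𝒪)) (c : I → 𝒪) : I → LaurentSeries 𝒪 :=
  F.mulVec fun k => HahnSeries.C (c k)

lemma ordGe_R {𝒪 : Type} [CommRing 𝒪] {p : ℕ} (hp : 0 < p) (φ : 𝒪 →+* 𝒪) (x : LaurentSeries 𝒪)
    (E : ℕ) (h0 : OrdGe 0 x) (hE : ∀ m : ℤ, 0 < m → m < E → x.coeff m = 0) :
    OrdGe ((p * E : ℕ) : ℤ) (phT p φ x - HahnSeries.C (φ (x.coeff 0))) := by
  intro m hm
  rw [HahnSeries.coeff_sub]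
  by_cases hd : (p : ℤ) ∣ m
  · obtain ⟨m', rfl⟩ := hd
    rw [phT_coeff hp]
    by_cases h1 : m' = 0
    · subst h1
      rw [mul_zero]
      simp
    · have h2 : (p : ℤ) * m' ≠ 0 := mul_ne_zero (by exact_mod_cast hp.ne') h1
      have h3 : (HahnSeries.C (φ (x.coeff 0)) : LaurentSeries 𝒪).coeff ((p : ℤ) * m') = 0 := by
        rw [HahnSeries.C_apply, HahnSeries.coeff_single_of_ne h2]
      rw [h3, sub_zero]
      have h4 : x.coeff m' = 0 := by
        rcases lt_or_gt_of_ne h1 with h5 | h5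
        · exact h0 _ h5
        · apply hE _ h5
          push_cast at hm
          exact lt_of_mul_lt_mul_left hm (by positivity)
      rw [h4, map_zero]
  · rw [phT_coeff_ne hp φ x m hd]
    have h2 : m ≠ 0 := by
      rintro rfl
      exact hd (dvd_zero _)
    rw [HahnSeries.C_apply, HahnSeries.coeff_single_of_ne h2, sub_zero]

lemma ordGe_mulVec {𝒪 : Type} [CommRing 𝒪] {I : Type} [Fintype I] [DecidableEq I] {A B : ℤ}
    {F : Matrix I I (LaurentSeries 𝒪)} {x : I → LaurentSeries 𝒪} (hF : ∀ i j, OrdGe A (F i j))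
    (hx : ∀ k, OrdGe B (x k)) : ∀ i, OrdGe (A + B) ((F.mulVec x) i) := by
  intro i
  unfold Matrix.mulVec dotProduct
  apply OrdGe.sum
  intro l _
  exact OrdGe.mul (hF i l) (hx l)

lemma ordGe_C {𝒪 : Type} [CommRing 𝒪] (c : 𝒪) : OrdGe 0 (HahnSeries.C c : LaurentSeries 𝒪) := by
  intro m hm
  rw [HahnSeries.C_apply, HahnSeries.coeff_single_of_ne hm.ne]

lemma hC_aux {𝒪 : Type} [CommRing 𝒪] {I : Type} [Fintype I] [DecidableEq I] {p N a E : ℕ}
    (φ : 𝒪 →+* 𝒪) (Q F : Matrix I I (LaurentSeries 𝒪)) (hp : 0 < p) (hQ : PolF Q)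
    (hE : ∀ m : ℤ, 0 < m → m < E → mco m Q = 0)
    (hcong : Cong ((p : LaurentSeries 𝒪) ^ N) (F.map (tht 𝒪) + Q * F)
      ((p : LaurentSeries 𝒪) • (F * Q.map (phT p φ))))
    (hpole : PolLe a F) (ha : a < p * E) (c : I → 𝒪) :
    nbv (tht 𝒪) Q (Fd F c) -
      (p : ℕ) • Fd F (((mco 0 Q).map φ).mulVec c) ∈ M0 I 𝒪 p N := by
  choose Y hY using hcong
  set cc : I → LaurentSeries 𝒪 := fun k => HahnSeries.C (c k) with hcc
  set R : Matrix I I (LaurentSeries 𝒪) :=
    Matrix.of fun l k => phT p φ (Q l k) - HahnSeries.C (φ ((Q l k).coeff 0)) with hR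
  refine mem_M0.mpr ⟨(p : LaurentSeries 𝒪) • F.mulVec (R.mulVec cc), (Matrix.of Y).mulVec cc,
    ?_, ?_⟩
  · have h1 : ∀ l, OrdGe (((p * E : ℕ) : ℤ) + 0) ((R.mulVec cc) l) := by
      apply ordGe_mulVec
      · intro l k
        apply ordGe_R hp φ (Q l k) E (hQ l k)
        intro m hm1 hm2
        exact congrFun (congrFun (hE m hm1 hm2) l) k
      · intro k
        exact ordGe_C (c k)
    have h2 := ordGe_mulVec hpole h1
    intro k
    rw [natCast_C]
    apply ordGe_Csmul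
    intro k
    apply OrdGe.mono _ (h2 k)
    have h3 : (a : ℤ) < ((p * E : ℕ) : ℤ) := by exact_mod_cast ha
    omega
  · funext i
    have h1 : nbv (tht 𝒪) Q (Fd F c) i = ((F.map (tht 𝒪) + Q * F).mulVec cc) i := by
      change tht 𝒪 ((F.mulVec cc) i) + (Q.mulVec (F.mulVec cc)) i = _
      rw [Matrix.add_mulVec, Matrix.mulVec_mulVec]
      change _ = ((F.map (tht 𝒪)).mulVec cc) i + ((Q * F).mulVec cc) i
      congr 1
      unfold Matrix.mulVec dotProduct
      rw [map_sum]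
      apply Finset.sum_congr rfl
      intro k _
      change tht 𝒪 (F i k * HahnSeries.C (c k)) = tht 𝒪 (F i k) * HahnSeries.C (c k)
      rw [mul_comm, tht_Cmul, mul_comm]
    have h2 : F.map (tht 𝒪) + Q * F = (p : LaurentSeries 𝒪) • (F * Q.map (phT p φ)) +
        (p : LaurentSeries 𝒪) ^ N • (Matrix.of Y) := by
      ext1 i j
      have := hY i j
      rw [sub_eq_iff_eq_add] at this
      rw [this, add_comm]
      rfl
    have h3 : Q.map (phT p φ) = R + ((mco 0 Q).map φ).map (HahnSeries.C : 𝒪 →+* LaurentSeries 𝒪) := by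
      ext1 l k
      rw [Matrix.add_apply, hR]
      simp only [Matrix.map_apply, Matrix.of_apply, mco]
      ring
    have h4 : (((mco 0 Q).map φ).map (HahnSeries.C : 𝒪 →+* LaurentSeries 𝒪)).mulVec cc =
        fun k => HahnSeries.C ((((mco 0 Q).map φ).mulVec c) k) := by
      funext k
      rw [hcc]
      exact (RingHom.map_mulVec (HahnSeries.C : 𝒪 →+* LaurentSeries 𝒪) _ _ k).symm
    have h5 : Fd F (((mco 0 Q).map φ).mulVec c) = F.mulVec
        ((((mco 0 Q).map φ).map (HahnSeries.C : 𝒪 →+* LaurentSeries 𝒪)).mulVec cc) := by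
      rw [h4]
      rfl
    rw [Pi.sub_apply, h1, h2, h5, Matrix.add_mulVec, Matrix.smul_mulVec, Matrix.smul_mulVec,
      ← Matrix.mulVec_mulVec, h3, Matrix.add_mulVec, Matrix.mulVec_add, smul_add]
    simp only [Pi.add_apply, Pi.smul_apply, smul_eq_mul, nsmul_eq_mul]
    ring

theorem trans (hW : WopStmt) (hL : LatshStmt) : TransStmt := by
  intro p _ 𝒪 _ z φ I _ _ L N E a Q F hO hF hQ hnil hE hcong hpole ha1 ha2
  have hp : p.Prime := Fact.out
  have hp1 : 0 < p ^ 2 := pow_pos hp.pos 2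
  -- the operators
  have hv : ((p ^ 2 - 1).factorial : ℤ_[p]) * 1 =
      ∏ j ∈ Finset.range (p ^ 2 - 1), ((0 : ℤ_[p]) + ((p ^ 2 - 1 : ℕ) : ℤ_[p]) - (j : ℤ_[p])) := by
    rw [mul_one, ← Finset.prod_range_reflect]
    rw [← Finset.prod_range_add_one_eq_factorial]
    push_cast
    apply Finset.prod_congr rfl
    intro j hj
    have hj' := Finset.mem_range.mp hj
    have h1 : ((p ^ 2 - 1 - 1 - j : ℕ) : ℤ_[p]) = ((p ^ 2 - 1 : ℕ) : ℤ_[p]) - 1 - (j : ℤ_[p]) := by
      have : p ^ 2 - 1 - 1 - j = p ^ 2 - 1 - (1 + j) := by omega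
      rw [this, Nat.cast_sub (by omega)]
      push_cast
      ring
    rw [h1]
    ring
  obtain ⟨T, W, hT1, hT2, hT3, hT4, hT5⟩ := hW p 𝒪 z φ I L Q hO hF (p ^ 2 - 1)
    ((p ^ 2 - 1 : ℕ) : ℤ_[p]) 0 1 (by omega) hv
  obtain hT5 := hT5 hQ
  have hN : ∀ x : I → LaurentSeries 𝒪, T x = (p ^ (2 * L + 1) : ℕ) • x +
      W (nbv (tht 𝒪) Q x) := by
    intro x
    rw [hT2, map_one, map_one, mul_one, map_zero, map_zero, zero_smul, sub_zero,
      natpow_smul]
  set T' : (I → LaurentSeries 𝒪) →+ (I → LaurentSeries 𝒪) := W.comp (nbv (tht 𝒪) Q) with hT'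
  have hT'a : ∀ x, T' x = W (nbv (tht 𝒪) Q x) := fun x => rfl
  have hMT : ∀ x, x ∈ M0 I 𝒪 p N → T x ∈ M0 I 𝒪 p N :=
    fun x hx => M0_map T (fun y hy => (hT5 0 y hy).1) hx
  have hMW : ∀ x, x ∈ M0 I 𝒪 p N → W x ∈ M0 I 𝒪 p N :=
    fun x hx => M0_map W (fun y hy => (hT5 0 y hy).2) hx
  have hMn : ∀ x, x ∈ M0 I 𝒪 p N → nbv (tht 𝒪) Q x ∈ M0 I 𝒪 p N :=
    fun x hx => M0_map _ (fun y hy => ordGe_nbv hQ hy) hx
  have hMT' : ∀ x, x ∈ M0 I 𝒪 p N → T' x ∈ M0 I 𝒪 p N :=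
    fun x hx => hMW _ (hMn _ hx)
  -- T and T' commute
  have hc : ∀ x, T (T' x) = T' (T x) := by
    intro x
    rw [hN (T' x), hN x, hT'a, hT'a, map_add, map_add, map_nsmul, map_nsmul, hT4, hT4]
  -- constants
  have hC : ∀ c : I → 𝒪, nbv (tht 𝒪) Q (Fd F c) -
      (p : ℕ) • Fd F (((mco 0 Q).map φ).mulVec c) ∈ M0 I 𝒪 p N :=
    fun c => hC_aux φ Q F hp.pos hQ hE hcong hpole ha1 c
  have hC2 : ∀ (s : ℕ) (c : I → 𝒪), ((nbv (tht 𝒪) Q)^[s]) (Fd F c) -
      (p ^ s : ℕ) • Fd F ((((mco 0 Q).map φ) ^ s).mulVec c) ∈ M0 I 𝒪 p N := by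
    intro s
    induction s with
    | zero =>
      intro c
      rw [Function.iterate_zero, pow_zero, pow_zero, Matrix.one_mulVec, one_smul, id, sub_self]
      exact AddSubgroup.zero_mem _
    | succ s ih =>
      intro c
      have h1 := hMn _ (ih c)
      rw [map_sub, map_nsmul] at h1
      have h2 := AddSubgroup.nsmul_mem _ (hC ((((mco 0 Q).map φ) ^ s).mulVec c)) (p ^ s)
      have h3 := AddSubgroup.add_mem _ h1 h2
      rw [nsmul_sub, sub_add_sub_cancel, ← Function.iterate_succ_apply' (nbv (tht 𝒪) Q), smul_smul,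
        Matrix.mulVec_mulVec, ← pow_succ, ← pow_succ'] at h3
      exact h3
  intro i j m hm
  set r := Fintype.card I with hr
  have hr1 : 1 ≤ r := Fintype.card_pos_iff.mpr ⟨i⟩
  set c : I → 𝒪 := Pi.single j 1 with hcdef
  set x := Fd F c with hx
  have hxi : x i = F i j := by
    rw [hx, hcdef]
    unfold Fd
    have : (fun k => (HahnSeries.C ((Pi.single j (1 : 𝒪) : I → 𝒪) k) : LaurentSeries 𝒪)) =
        Pi.single j 1 := by
      funext k
      by_cases h : k = j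
      · subst h; simp
      · simp [Pi.single_apply, h]
    rw [this, Matrix.mulVec_single_one]
    rfl
  have hx0 : ∀ k, OrdGe (-((p ^ 2 - 1 : ℕ) : ℤ)) (x k) := by
    intro k
    rw [hx]
    unfold Fd Matrix.mulVec dotProduct
    apply OrdGe.sum
    intro l _
    rw [mul_comm]
    apply OrdGe.Cmul
    apply OrdGe.mono _ (hpole k l)
    have : a ≤ p ^ 2 - 1 := by omega
    have h3 : (a : ℤ) ≤ ((p ^ 2 - 1 : ℕ) : ℤ) := by exact_mod_cast this
    omega
  have hN0 : ((mco 0 Q).map φ) ^ r = 0 := by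
    have h1 : (mco 0 Q).map φ = (RingHom.mapMatrix φ) (mco 0 Q) := rfl
    rw [h1, ← map_pow, hnil, map_zero]
  have h1 : ((nbv (tht 𝒪) Q)^[r]) x ∈ M0 I 𝒪 p N := by
    have := hC2 r c
    rw [hN0, Matrix.zero_mulVec] at this
    have h0 : Fd F (0 : I → 𝒪) = 0 := by
      unfold Fd
      have : (fun k => (HahnSeries.C ((0 : I → 𝒪) k) : LaurentSeries 𝒪)) = 0 := by
        funext k; simp
      rw [this, Matrix.mulVec_zero]
    rwa [h0, smul_zero, sub_zero] at this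
  have h2 : (T'^[r]) x ∈ M0 I 𝒪 p N := by
    have h3 : ∀ s : ℕ, ∀ y, (T'^[s]) y = (W^[s]) (((nbv (tht 𝒪) Q)^[s]) y) := by
      intro s
      induction s with
      | zero => intro y; rfl
      | succ s ih =>
        intro y
        have h5 : ∀ (s : ℕ) (y : I → LaurentSeries 𝒪),
            ((nbv (tht 𝒪) Q)^[s]) (W y) = W (((nbv (tht 𝒪) Q)^[s]) y) := by
          intro s
          induction s with
          | zero => intro y; rfl
          | succ s ih =>
            intro y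
            rw [Function.iterate_succ_apply', ih, ← hT4, Function.iterate_succ_apply']
        rw [Function.iterate_succ_apply, ih, hT'a, h5, Function.iterate_succ_apply,
          Function.iterate_succ_apply]
    rw [h3]
    have h4 : ∀ s : ℕ, ∀ y ∈ M0 I 𝒪 p N, (W^[s]) y ∈ M0 I 𝒪 p N := by
      intro s
      induction s with
      | zero => intro y hy; exact hy
      | succ s ih =>
        intro y hy
        rw [Function.iterate_succ_apply]
        exact ih _ (hMW _ hy)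
    exact h4 r _ h1
  have h3 : (T^[r]) x ∈ M0 I 𝒪 p N := by
    apply M0_of_ord
    have hprod : ((List.replicate r (0 : 𝒪)).map
        fun a => mco 0 Q - a • (1 : Matrix I I 𝒪)).prod = 0 := by
      rw [List.map_replicate, List.prod_replicate, zero_smul, sub_zero, hnil]
    have h4 := hL 𝒪 I Q (List.replicate r 0) hQ hprod (p ^ 2 - 1) 0 x hx0
    have hzc : (HahnSeries.C (((p ^ 2 - 1 : ℕ) : 𝒪) - 0) : LaurentSeries 𝒪) =
        HahnSeries.C (z ((p ^ 2 - 1 : ℕ) : ℤ_[p])) := by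
      rw [sub_zero, map_natCast z]
    have h5 : ∀ (s : ℕ) (y : I → LaurentSeries 𝒪),
        ((List.replicate s (0 : 𝒪)).foldr (fun a y =>
          dsc (tht 𝒪) Q (HahnSeries.C (((p ^ 2 - 1 : ℕ) : 𝒪) - a)) (p ^ 2 - 1 + 0) y) y) =
        ((ev z Q (Dp ((p ^ 2 - 1 : ℕ) : ℤ_[p]) (p ^ 2 - 1)))^[s]) y := by
      intro s
      induction s with
      | zero => intro y; rfl
      | succ s ih =>
        intro y
        rw [List.replicate_succ, List.foldr_cons, ih, Function.iterate_succ_apply', hzc,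
          dsc_eq_ev, add_zero]
    rw [h5] at h4
    have h6 : ∀ (s : ℕ) (y : I → LaurentSeries 𝒪),
        (((p ^ 2 - 1).factorial ^ s : ℕ) : LaurentSeries 𝒪) • ((T^[s]) y) =
        (((p ^ (2 * L + 1)) ^ s : ℕ) : LaurentSeries 𝒪) •
          (((ev z Q (Dp ((p ^ 2 - 1 : ℕ) : ℤ_[p]) (p ^ 2 - 1)))^[s]) y) := by
      intro s
      induction s with
      | zero => intro y; simp
      | succ s ih =>
        intro y
        rw [Function.iterate_succ_apply', Function.iterate_succ_apply', pow_succ, Nat.cast_mul,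
          mul_comm, mul_smul, smul_comm]
        have h7 := hT1 ((T^[s]) y)
        rw [dsc_eq_ev] at h7
        rw [h7]
        have h8 : (((p ^ 2 - 1).factorial ^ s : ℕ) : LaurentSeries 𝒪) •
            (ev z Q (Dp ((p ^ 2 - 1 : ℕ) : ℤ_[p]) (p ^ 2 - 1))) ((T^[s]) y) =
            (((p ^ (2 * L + 1)) ^ s : ℕ) : LaurentSeries 𝒪) •
            (ev z Q (Dp ((p ^ 2 - 1 : ℕ) : ℤ_[p]) (p ^ 2 - 1)))
            (((ev z Q (Dp ((p ^ 2 - 1 : ℕ) : ℤ_[p]) (p ^ 2 - 1)))^[s]) y) := by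
          rw [Nat.cast_smul_eq_nsmul, ← map_nsmul, ← Nat.cast_smul_eq_nsmul (LaurentSeries 𝒪),
            ih, Nat.cast_smul_eq_nsmul, map_nsmul, Nat.cast_smul_eq_nsmul]
        rw [smul_comm, h8, smul_smul]
        congr 1
        push_cast
        ring
    apply ordGe_of_smul hO (n := (p ^ 2 - 1).factorial ^ r)
      (pow_ne_zero _ (Nat.factorial_ne_zero _))
    intro k
    rw [h6, natCast_C]
    exact ordGe_Csmul _ h4 k
  have h4 := nilp (M0 I 𝒪 p N) T T' (p ^ (2 * L + 1)) hMT hMT' hc hN (r + r) r r rfl x h3 h2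
  obtain ⟨x0, x1, hx1, hx2⟩ := mem_M0.mp h4
  have h5 := congrArg (fun v : I → LaurentSeries 𝒪 => (v i).coeff m) hx2
  simp only [Pi.add_apply, Pi.smul_apply, HahnSeries.coeff_add, smul_eq_mul] at h5
  rw [hx1 i m hm, zero_add, coeff_natpow_mul, nsmul_eq_mul, coeff_nat_mul, hxi, ← pow_mul,
    Nat.cast_pow] at h5
  by_cases hNK : N ≤ (2 * L + 1) * r ^ 2
  · rw [Nat.sub_eq_zero_of_le hNK, pow_zero]
    exact one_dvd _
  · have hK : (2 * L + 1) * (r + r - 1) ≤ (2 * L + 1) * r ^ 2 := by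
      apply Nat.mul_le_mul_left
      obtain ⟨s, hs⟩ : ∃ s, r = s + 1 := ⟨r - 1, by omega⟩
      have h8 : r + r - 1 = 2 * s + 1 := by omega
      rw [h8, hs]
      nlinarith
    have hsplit : N = (2 * L + 1) * (r + r - 1) + (N - (2 * L + 1) * (r + r - 1)) := by omega
    have h6 : (F i j).coeff m = (p : 𝒪) ^ (N - (2 * L + 1) * (r + r - 1)) * (x1 i).coeff m := by
      have h7 : (p : 𝒪) ^ ((2 * L + 1) * (r + r - 1)) * ((F i j).coeff m -
          (p : 𝒪) ^ (N - (2 * L + 1) * (r + r - 1)) * (x1 i).coeff m) = 0 := by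
        rw [mul_sub, h5, ← mul_assoc, ← pow_add, ← hsplit, sub_self]
      exact sub_eq_zero.mp (pow_tf hO _ _ h7)
    rw [h6]
    apply Dvd.dvd.mul_right
    apply pow_dvd_pow
    omega

end Pool.Agent.Helper95_CM.H69
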