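import Pool.Agent.Helper69_CM.Lift

/-!
# TRK: transfer at the number field level (helper69)
-/

set_option autoImplicit false
set_option linter.unusedSectionVars false

noncomputable section

namespace Pool.Agent.Helper95_CM.H69

open Pool.Agent.Helper95_CM

section gauge

variable {I R : Type} [Fintype I] [DecidableEq I] [CommRing R]

lemma map_d_mul {d : R →+ R} (hd : IsDer d) (X Y : Matrix I I R) :
    (X * Y).map d = X.map d * Y + X * Y.map d := by
  ext1 i j
  simp only [Matrix.map_apply, Matrix.mul_apply, Matrix.add_apply, map_sum]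
  rw [← Finset.sum_add_distrib]
  apply Finset.sum_congr rfl
  intro k _
  exact hd _ _

lemma der_one {d : R →+ R} (hd : IsDer d) : d 1 = 0 := by
  have := hd 1 1
  rw [mul_one, mul_one, one_mul] at this
  exact (add_eq_left.mp this.symm)

lemma map_d_one {d : R →+ R} (hd : IsDer d) : (1 : Matrix I I R).map d = 0 := by
  ext1 i j
  rw [Matrix.map_apply, Matrix.one_apply]
  split_ifs
  · exact der_one hd
  · exact map_zero d

lemma gauge_inv {d : R →+ R} (hd : IsDer d) {U Ui Q Q' : Matrix I I R}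
    (hG : Gauge d U Ui Q Q') : Ui.map d = Ui * Q - Q' * Ui := by
  have h1 : Ui.map d * U + Ui * U.map d = 0 := by
    rw [← map_d_mul hd, hG.inv', map_d_one hd]
  have h2 : U.map d = U * Q' - Q * U := by
    rw [← hG.eq, add_sub_cancel_right]
  have h3 : Ui.map d * U = -(Ui * U.map d) := eq_neg_of_add_eq_zero_left h1
  have h4 : Ui.map d = Ui.map d * U * Ui := by
    rw [Matrix.mul_assoc, hG.inv, Matrix.mul_one]
  rw [h4, h3, h2, Matrix.mul_sub, ← Matrix.mul_assoc, hG.inv', Matrix.one_mul, neg_sub,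
    Matrix.sub_mul, ← Matrix.mul_assoc, Matrix.mul_assoc (Ui * Q), hG.inv, Matrix.mul_one]

lemma gau_F {f : R →+* R} {d : R →+ R} {p : ℕ} {a : R} {Q Q' F U Ui : Matrix I I R}
    (hd : IsDer d) (hc : ∀ x, d (f x) = (p : R) * f (d x))
    (hF : Cong a (F.map d + Q * F) ((p : R) • (F * Q.map f)))
    (hG : Gauge d U Ui Q Q') :
    Cong a ((Ui * F * U.map f).map d + Q' * (Ui * F * U.map f))
      ((p : R) • (Ui * F * U.map f * Q'.map f)) := by
  choose Y hY using hF
  have h1 : F.map d = (p : R) • (F * Q.map f) - Q * F + a • (Matrix.of Y) := by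
    ext1 i j
    have := hY i j
    change F.map d i j = (((p : R) • (F * Q.map f)) i j - (Q * F) i j) + a * Y i j
    rw [← this]
    change F.map d i j = (((p : R) • (F * Q.map f)) i j - (Q * F) i j) +
      ((F.map d i j + (Q * F) i j) - ((p : R) • (F * Q.map f)) i j)
    ring
  have h2 : (U.map f).map d = (p : R) • (U.map f * Q'.map f - Q.map f * U.map f) := by
    have h3 : (U.map f).map d = (p : R) • ((U.map d).map f) := by
      ext1 i j
      rw [Matrix.smul_apply, Matrix.map_apply, Matrix.map_apply, Matrix.map_apply,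
        Matrix.map_apply, smul_eq_mul]
      exact hc _
    have h4 : U.map d = U * Q' - Q * U := by
      rw [← hG.eq, add_sub_cancel_right]
    rw [h3, h4, Matrix.map_sub _ (map_sub f), Matrix.map_mul, Matrix.map_mul]
  have h5 : (Ui * F * U.map f).map d + Q' * (Ui * F * U.map f) =
      (p : R) • (Ui * F * U.map f * Q'.map f) + a • (Ui * Matrix.of Y * U.map f) := by
    rw [map_d_mul hd, map_d_mul hd, h2, gauge_inv hd hG, h1]
    simp only [Matrix.mul_sub, Matrix.sub_mul, Matrix.mul_add, Matrix.add_mul, Matrix.mul_smul,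
      Matrix.smul_mul, smul_sub, Matrix.mul_assoc]
    abel
  intro i j
  rw [h5, Matrix.add_apply, add_sub_cancel_left, Matrix.smul_apply, smul_eq_mul]
  exact dvd_mul_right _ _

end gauge

section polmod

variable {𝒪 : Type} [CommRing 𝒪] {I : Type} [Fintype I] [DecidableEq I]

lemma dvd_coeff_mul {c : 𝒪} {x y : LaurentSeries 𝒪} (hx : OrdGe 0 x)
    (hy : ∀ m : ℤ, m < 0 → c ∣ y.coeff m) (m : ℤ) (hm : m < 0) : c ∣ (x * y).coeff m := by
  rw [HahnSeries.coeff_mul]
  apply Finset.dvd_sum
  intro ij hij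
  simp only [Finset.mem_antidiagonal] at hij
  obtain ⟨_, _, h3⟩ := hij
  by_cases h : ij.1 < 0
  · rw [hx _ h, zero_mul]
    exact dvd_zero _
  · exact Dvd.dvd.mul_left (hy _ (by omega)) _

lemma coeff_sum' {ι : Type} (s : Finset ι) (f : ι → LaurentSeries 𝒪) (m : ℤ) :
    (∑ i ∈ s, f i).coeff m = ∑ i ∈ s, (f i).coeff m := by
  classical
  induction s using Finset.induction_on with
  | empty => simp
  | insert a s ha ih => rw [Finset.sum_insert ha, Finset.sum_insert ha, HahnSeries.coeff_add, ih]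

lemma polMod_mul_left {p k : ℕ} {A B : Matrix I I (LaurentSeries 𝒪)} (hA : PolF A)
    (hB : PolMod p k B) : PolMod p k (A * B) := by
  intro i j m hm
  rw [Matrix.mul_apply, coeff_sum']
  apply Finset.dvd_sum
  intro l _
  exact dvd_coeff_mul (hA i l) (fun m hm => hB l j m hm) m hm

lemma polMod_mul_right {p k : ℕ} {A B : Matrix I I (LaurentSeries 𝒪)} (hA : PolF A)
    (hB : PolMod p k B) : PolMod p k (B * A) := by
  intro i j m hm
  rw [Matrix.mul_apply, coeff_sum']
  apply Finset.dvd_sum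
  intro l _
  rw [mul_comm]
  exact dvd_coeff_mul (hA l j) (fun m hm => hB i l m hm) m hm

end polmod

section descent

/-- series with coefficients in a subfield -/
def descd {F : Type} [Field F] (k : Subfield F) (x : LaurentSeries F) (h : ∀ m, x.coeff m ∈ k) :
    LaurentSeries k where
  coeff m := ⟨x.coeff m, h m⟩
  isPWO_support' := x.isPWO_support.mono (by
    intro m hm h0
    apply hm
    exact Subtype.ext h0)

lemma hmap_descd {F : Type} [Field F] (k : Subfield F) (x : LaurentSeries F)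
    (h : ∀ m, x.coeff m ∈ k) : hmap k.subtype (descd k x h) = x := by
  ext m
  rfl

lemma hmap_tht {R S : Type} [CommRing R] [CommRing S] (f : R →+* S) (x : LaurentSeries R) :
    hmap f (tht R x) = tht S (hmap f x) := by
  ext m
  simp only [hmap_coeff, tht_coeff, map_mul, map_intCast]

end descent

theorem trk (hTrans : TransStmt) (hFlat : FlatStmt) (hGauk : GaukStmt) (hSpg : SpgStmt)
    (hOpc : OpcStmt) (hFrb : FrbStmt) : TrkStmt := by
  intro q K _ _ I _ _ L Q hF hQ hnil N C
  haveI : CharZero (OO q K) := charZero_of_injective_ringHom (f := kO q K) (RingHom.injective _)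
  obtain ⟨⟨S, hS⟩, -, -, -, -, -, hth, hlp⟩ := hSpg q K
  -- descend to the subfield
  set k := kF q K with hk
  haveI : CharZero k := charZero_of_injective_algebraMap (R := ℚ) (algebraMap ℚ k).injective
  set Qk : Matrix I I (LaurentSeries k) :=
    Matrix.of fun i j => descd k (Q i j) (hF.1 i j).2 with hQk
  have hQkm : Qk.map (hmap k.subtype) = Q := by
    ext1 i j
    exact hmap_descd k (Q i j) (hF.1 i j).2
  have hPolQk : PolF Qk := by
    intro i j m hm
    exact Subtype.ext (hQ i j m hm)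
  have hsub : ∀ {X Y : Matrix I I k}, X.map k.subtype = Y.map k.subtype → X = Y := by
    intro X Y h
    ext1 i j
    exact Subtype.ext (congrFun (congrFun h i) j)
  have hnilk : (mco 0 Qk) ^ Fintype.card I = 0 := by
    apply hsub
    have h1 : ((mco 0 Qk) ^ Fintype.card I).map k.subtype =
        ((mco 0 Qk).map k.subtype) ^ Fintype.card I := by
      exact map_pow (RingHom.mapMatrix k.subtype) _ _
    have h2 : (mco 0 Qk).map k.subtype = mco 0 Q := rfl
    rw [h1, h2, hnil]
    exact (map_zero (RingHom.mapMatrix k.subtype)).symm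
  obtain ⟨G, Gi, Qk', hG, hPQk', hPG, hPGi, hLG, hQ0, hE⟩ := hFlat k I Qk (C + 1) hPolQk hnilk
  -- back to the big field
  set G' : Matrix I I (LL q K) := G.map (hmap k.subtype) with hG'
  set Gi' : Matrix I I (LL q K) := Gi.map (hmap k.subtype) with hGi'
  set Q1 : Matrix I I (LL q K) := Qk'.map (hmap k.subtype) with hQ1
  have hmone : (1 : Matrix I I (LaurentSeries k)).map (hmap k.subtype) =
      (1 : Matrix I I (LL q K)) := by
    exact map_one (RingHom.mapMatrix (hmap k.subtype))
  have hgauge : Gauge (thLt q K) G' Gi' Q Q1 := by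
    constructor
    · rw [hG', hGi', ← Matrix.map_mul, hG.inv, hmone]
    · rw [hG', hGi', ← Matrix.map_mul, hG.inv', hmone]
    · have h1 : G'.map (thLt q K) = (G.map (tht k)).map (hmap k.subtype) := by
        ext1 i j
        exact (hmap_tht k.subtype (G i j)).symm
      rw [h1, ← hQkm, hG', hQ1, ← Matrix.map_mul, ← Matrix.map_mul,
        ← Matrix.map_add _ (map_add _), hG.eq]
  have hInG : ∀ i j, InG (G' i j) := by
    intro i j
    obtain ⟨a, ha⟩ := hLG
    apply hlp
    · intro m
      exact ((G i j).coeff m).2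
    · refine ⟨a, fun m hm => ?_⟩
      change k.subtype ((G i j).coeff m) = 0
      rw [ha i j m hm, map_zero]
  have hInGi : ∀ i j, InG (Gi' i j) := by
    set GS : Matrix I I S := Matrix.of fun i j => ⟨G' i j, (hS _).mpr (hInG i j)⟩ with hGS
    have h1 : GS.map S.subtype = G' := by
      ext1 i j
      rfl
    have h2 : GS.det ≠ 0 := by
      intro h0
      have h3 : G'.det = 0 := by
        have := RingHom.map_det S.subtype GS
        rw [h0, map_zero] at this
        rw [← h1]
        exact this.symm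
      have h4 : G'.det * Gi'.det = 1 := by
        rw [← Matrix.det_mul, hgauge.inv, Matrix.det_one]
      rw [h3, zero_mul] at h4
      exact zero_ne_one h4
    have h5 : GS * GS⁻¹ = 1 := Matrix.mul_nonsing_inv GS (Ne.isUnit h2)
    have h6 : G' * (GS⁻¹).map S.subtype = 1 := by
      rw [← h1, ← Matrix.map_mul, h5]
      exact map_one (RingHom.mapMatrix S.subtype)
    have h7 : Gi' = (GS⁻¹).map S.subtype := by
      rw [← Matrix.one_mul ((GS⁻¹).map S.subtype), ← hgauge.inv', Matrix.mul_assoc, h6,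
        Matrix.mul_one]
    intro i j
    rw [h7, ← hS]
    exact ((GS⁻¹) i j).2
  obtain ⟨hFQ1, -⟩ := hGauk q K I L Q Q1 G' Gi' hF hInG hInGi hgauge
  obtain ⟨C1, p1, hC1⟩ := hFQ1.2 0
  obtain ⟨p2, hp2⟩ := exists_lift (fun i j => (hInG i j).1)
  obtain ⟨p3, hp3⟩ := exists_lift (fun i j => (hInGi i j).1)
  obtain ⟨p4, hp4⟩ := exists_lift (fun i j => (hFQ1.1 i j).1)
  refine ⟨max (max p1 p2) (max (max p3 p4) (C + 1)), ?_⟩
  intro p _ hp ι Q' F hQ' hcong hpole
  have hpp : 0 < p := (Fact.out : p.Prime).pos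
  have e1 : p1 ≤ p := le_trans (le_trans (le_max_left _ _) (le_max_left _ _)) hp
  have e2 : p2 ≤ p := le_trans (le_trans (le_max_right _ _) (le_max_left _ _)) hp
  have e34 : max (max p3 p4) (C + 1) ≤ p := le_trans (le_max_right _ _) hp
  have e3 : p3 ≤ p := le_trans (le_trans (le_max_left _ _) (le_max_left _ _)) e34
  have e4 : p4 ≤ p := le_trans (le_trans (le_max_right _ _) (le_max_left _ _)) e34
  have e5 : C + 1 ≤ p := le_trans (le_max_right _ _) e34
  obtain ⟨U1, hU1⟩ := hp2 p e2 ι
  obtain ⟨U1i, hU1i⟩ := hp3 p e3 ι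
  obtain ⟨Q1', hQ1'⟩ := hp4 p e4 ι
  have hgl := gauge_lift hOpc hQ' hQ1' hU1 hU1i hgauge
  have hO := hOpc q ℤ_[p] ℤ_[p] (RingHom.id _) p hpp
  have hder : IsDer (R := LL q ℤ_[p]) (thLt q ℤ_[p]) := hO.2.2.2.2.2.2.2.2.1
  have hcomm : ∀ x, thLt q ℤ_[p] (phL q ℤ_[p] p x) =
      (p : LL q ℤ_[p]) * phL q ℤ_[p] p (thLt q ℤ_[p] x) := hO.2.2.2.2.2.2.1
  have hPG' : PolF G' := by
    intro i j m hm
    change k.subtype ((G i j).coeff m) = 0
    rw [hPG i j m hm, map_zero]
  have hPGi' : PolF Gi' := by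
    intro i j m hm
    change k.subtype ((Gi i j).coeff m) = 0
    rw [hPGi i j m hm, map_zero]
  have hPQ1 : PolF Q1 := by
    intro i j m hm
    change k.subtype ((Qk' i j).coeff m) = 0
    rw [hPQk' i j m hm, map_zero]
  have hPU1 : PolF U1 := lift_polF hU1 hPG'
  have hPU1i : PolF U1i := lift_polF hU1i hPGi'
  have hPQ1' : PolF Q1' := lift_polF hQ1' hPQ1
  have hQ1'c : ∀ m : ℤ, (mco m Q1').map (mO q (zq p)) = (mco m Q1).map (mO q ι) := by
    intro m
    ext1 i j
    have h1 := congrFun (congrFun hQ1' i) j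
    have h2 := congrArg (fun v : LL q ℚ_[p] => v.coeff m) h1
    exact h2.symm
  have hinjO : ∀ {X Y : Matrix I I (OO q ℤ_[p])},
      X.map (mO q (zq p)) = Y.map (mO q (zq p)) → X = Y := by
    intro X Y h
    ext1 i j
    exact mO_inj (congrFun (congrFun h i) j)
  have hQ10 : mco 0 Q1 = mco 0 Q := by
    have h1 : mco 0 Q1 = (mco 0 Qk').map k.subtype := rfl
    rw [h1, hQ0]
    rfl
  have hnil1 : (mco 0 Q1') ^ Fintype.card I = 0 := by
    apply hinjO
    have h1 : ((mco 0 Q1') ^ Fintype.card I).map (mO q (zq p)) =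
        ((mco 0 Q1').map (mO q (zq p))) ^ Fintype.card I :=
      map_pow (RingHom.mapMatrix (mO q (zq p))) _ _
    have h2 : ((mco 0 Q1) ^ Fintype.card I).map (mO q ι) =
        ((mco 0 Q1).map (mO q ι)) ^ Fintype.card I :=
      map_pow (RingHom.mapMatrix (mO q ι)) _ _
    rw [h1, hQ1'c, ← h2, hQ10, hnil]
    have h3 : (0 : Matrix I I (OO q K)).map (mO q ι) = 0 :=
      map_zero (RingHom.mapMatrix (mO q ι))
    have h4 : (0 : Matrix I I (OO q ℤ_[p])).map (mO q (zq p)) = 0 :=
      map_zero (RingHom.mapMatrix (mO q (zq p)))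
    rw [h3, h4]
  have hE1 : ∀ m : ℤ, 0 < m → m < ((C + 1 : ℕ) : ℤ) → mco m Q1' = 0 := by
    intro m hm1 hm2
    apply hinjO
    rw [hQ1'c]
    have h1 : mco m Q1 = (mco m Qk').map k.subtype := rfl
    have h3 : (0 : Matrix I I (OO q K)).map (mO q ι) = 0 :=
      map_zero (RingHom.mapMatrix (mO q ι))
    have h4 : (0 : Matrix I I (OO q ℤ_[p])).map (mO q (zq p)) = 0 :=
      map_zero (RingHom.mapMatrix (mO q (zq p)))
    have h5 : (0 : Matrix I I k).map k.subtype = 0 := map_zero (RingHom.mapMatrix k.subtype)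
    rw [h1, hE m hm1 hm2, h5, h3, h4]
  have hFAll := (hC1 p e1 ι Q1' hQ1').1
  have hcong1 := gau_F hder hcomm hcong hgl
  have hphU : PolLe 0 (U1.map (phL q ℤ_[p] p)) := by
    have := polLe_phT (I := I) hpp (phO q ℤ_[p] p) (a := 0) (X := U1) (fun i j => by
      simpa using hPU1 i j)
    simpa using this
  have hphUi : PolF (U1i.map (phL q ℤ_[p] p)) := by
    have := polLe_phT (I := I) hpp (phO q ℤ_[p] p) (a := 0) (X := U1i) (fun i j => by
      simpa using hPU1i i j)
    intro i j
    simpa using this i j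
  have hpole1 : PolLe (C * p) (U1i * F * U1.map (phL q ℤ_[p] p)) := by
    have h1 : PolLe 0 U1i := fun i j => by simpa using hPU1i i j
    have h2 := polLe_mul (polLe_mul h1 hpole) hphU
    simpa using h2
  have key := hTrans p (OO q ℤ_[p]) (kO q ℤ_[p]) (phO q ℤ_[p] p) I L N (C + 1) (C * p) Q1'
    (U1i * F * U1.map (phL q ℤ_[p] p)) (hFrb q p).2.2.1 hFAll hPQ1' hnil1 hE1 hcong1 hpole1
    (by nlinarith) (by nlinarith)
  have hback : F = U1 * (U1i * F * U1.map (phL q ℤ_[p] p)) * U1i.map (phL q ℤ_[p] p) := by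
    have h1 : U1.map (phL q ℤ_[p] p) * U1i.map (phL q ℤ_[p] p) = 1 := by
      rw [← Matrix.map_mul, hgl.inv]
      exact map_one (RingHom.mapMatrix (phL q ℤ_[p] p))
    rw [Matrix.mul_assoc, Matrix.mul_assoc (U1i * F), h1, Matrix.mul_one, ← Matrix.mul_assoc,
      hgl.inv, Matrix.one_mul]
  rw [hback]
  exact polMod_mul_right hphUi (polMod_mul_left hPU1 key)

end Pool.Agent.Helper95_CM.H69
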