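import Pool.Agent.Helper69_CM.Base

/-!
# WOP: binomial operator and divided difference (helper69)
-/

set_option autoImplicit false
set_option linter.unusedSectionVars false

noncomputable section

namespace Pool.Agent.Helper95_CM.H69

open Pool.Agent.Helper95_CM

lemma smeval_desc {p : ℕ} [Fact p.Prime] (a : ℤ_[p]) (k : ℕ) :
    (descPochhammer ℤ k).smeval a = ∏ j ∈ Finset.range k, (a - (j : ℤ_[p])) := by
  induction k with
  | zero => simp
  | succ k ih =>
    rw [descPochhammer_succ_right, Polynomial.smeval_mul, ih, Finset.prod_range_succ,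
      Polynomial.smeval_sub, Polynomial.smeval_X, Polynomial.smeval_natCast, pow_one, pow_zero,
      nsmul_one]

lemma exists_choose {p : ℕ} [Fact p.Prime] (a : ℤ_[p]) (k : ℕ) :
    ∃ w : ℤ_[p], (k.factorial : ℤ_[p]) * w = ∏ j ∈ Finset.range k, (a - (j : ℤ_[p])) := by
  refine ⟨Ring.choose a k, ?_⟩
  rw [← smeval_desc, Ring.descPochhammer_eq_factorial_smul_choose, nsmul_eq_mul]

lemma isUnit_nat {p : ℕ} [Fact p.Prime] {n : ℕ} (h : ¬ p ∣ n) : IsUnit (n : ℤ_[p]) := by
  rw [PadicInt.isUnit_iff]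
  have h1 := PadicInt.norm_le_one (n : ℤ_[p])
  rcases lt_or_eq_of_le h1 with h2 | h2
  · exfalso
    apply h
    have h3 := (PadicInt.norm_int_lt_one_iff_dvd (p := p) (n : ℤ)).mp (by exact_mod_cast h2)
    exact_mod_cast h3
  · exact h2

lemma dvd_p {p : ℕ} [Fact p.Prime] {m : ℕ} (h1 : 1 ≤ m) (h2 : m < p ^ 2) :
    (m : ℤ_[p]) ∣ (p : ℤ_[p]) := by
  by_cases h : p ∣ m
  · obtain ⟨k, rfl⟩ := h
    have hp : 0 < p := (Fact.out : p.Prime).pos
    have hk : k < p := by
      rw [pow_two] at h2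
      exact lt_of_mul_lt_mul_left h2 hp.le
    have hk0 : 0 < k := by
      rcases Nat.eq_zero_or_pos k with h3 | h3
      · subst h3; simp at h1
      · exact h3
    have hk1 : ¬ p ∣ k := fun h3 => absurd (Nat.le_of_dvd hk0 h3) (not_le.mpr hk)
    obtain ⟨u, hu⟩ := isUnit_nat hk1
    refine ⟨((u⁻¹ : (ℤ_[p])ˣ) : ℤ_[p]), ?_⟩
    push_cast
    rw [← hu, mul_assoc, Units.mul_inv, mul_one]
  · exact (isUnit_nat h).dvd

lemma term_id {S V : Type} [CommRing S] [AddCommGroup V] [Module S V]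
    (nf cf ch pr pp fi : S) (L : ℕ) (g y : V)
    (h5 : nf * cf = ch * pr * pp * fi) (h2 : fi • g = pp ^ (2 * L) • y) :
    pp ^ (2 * L + 1) • ch • pr • y = nf • cf • g := by
  rw [smul_smul nf, h5, mul_smul, h2, smul_smul, smul_smul, smul_smul]
  congr 1
  ring

theorem wop (hD : DivopStmt) : WopStmt := by
  intro p _ 𝒪 _ z φ I _ _ L Q hO hF n b a v hn hv
  have hfac : n.factorial ≠ 0 := Nat.factorial_ne_zero n
  have hG := hD p 𝒪 z φ I L Q hO hF
  obtain ⟨Gb, hb1, hb2, hb3⟩ := hG n b hn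
  have hGi : ∀ i : ℕ, ∃ G : (I → LaurentSeries 𝒪) →+ (I → LaurentSeries 𝒪), i < p ^ 2 →
      ((∀ x, (i.factorial : LaurentSeries 𝒪) • G x =
        (p : LaurentSeries 𝒪) ^ (2 * L) • dsc (tht 𝒪) Q (HahnSeries.C (z (-a - 1))) i x) ∧
      (∀ x, G (nbv (tht 𝒪) Q x) = nbv (tht 𝒪) Q (G x)) ∧
      (PolF Q → ∀ (B : ℤ) (x : I → LaurentSeries 𝒪), (∀ k, OrdGe B (x k)) →
        ∀ k, OrdGe B (G x k))) := by
    intro i
    by_cases hi : i < p ^ 2
    · obtain ⟨G, h⟩ := hG i (-a - 1) hi
      exact ⟨G, fun _ => h⟩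
    · exact ⟨0, fun h => absurd h hi⟩
  choose G hG2 using hGi
  have hκ : ∀ i : ℕ, ∃ κ : ℤ_[p], i < p ^ 2 → 1 ≤ i → (i : ℤ_[p]) * κ = p := by
    intro i
    by_cases hi : i < p ^ 2 ∧ 1 ≤ i
    · obtain ⟨κ, h⟩ := dvd_p (p := p) hi.2 hi.1
      exact ⟨κ, fun _ _ => h.symm⟩
    · exact ⟨0, fun h1 h2 => absurd ⟨h1, h2⟩ hi⟩
  choose κ hκ using hκ
  choose w hw using fun k => exists_choose (p := p) (a + b) k
  -- coefficient
  let cf : ℕ → 𝒪 := fun i => z (κ (i + 1) * w (n - (i + 1)))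
  let W : (I → LaurentSeries 𝒪) →+ (I → LaurentSeries 𝒪) :=
    { toFun := fun x => ∑ i ∈ Finset.range n, (HahnSeries.C (cf i) : LaurentSeries 𝒪) • G i x
      map_zero' := by simp
      map_add' := by
        intro x y
        rw [← Finset.sum_add_distrib]
        apply Finset.sum_congr rfl
        intro i _
        rw [map_add, smul_add] }
  let T : (I → LaurentSeries 𝒪) →+ (I → LaurentSeries 𝒪) :=
    { toFun := fun x => (p : LaurentSeries 𝒪) • Gb x
      map_zero' := by simp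
      map_add' := by
        intro x y
        rw [map_add, smul_add] }
  have hT : ∀ x, T x = (p : LaurentSeries 𝒪) • Gb x := fun x => rfl
  have hW : ∀ x, W x = ∑ i ∈ Finset.range n, (HahnSeries.C (cf i) : LaurentSeries 𝒪) • G i x :=
    fun x => rfl
  have hT1 : ∀ x, (n.factorial : LaurentSeries 𝒪) • T x =
        (p : LaurentSeries 𝒪) ^ (2 * L + 1) • dsc (tht 𝒪) Q (HahnSeries.C (z b)) n x := by
    intro x
    rw [hT, smul_comm, hb1, smul_smul, ← pow_succ']
  refine ⟨T, W, hT1, ?_, ?_, ?_, ?_⟩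
  · intro x
    apply nat_smul_inj hO hfac
    rw [hT1, dsc_eq_ev]
    have hba : b = -a + (a + b) := by ring
    have hxa : nbv (tht 𝒪) Q x - (HahnSeries.C (z a) : LaurentSeries 𝒪) • x =
        ev z Q (Polynomial.X + Polynomial.C (-a)) x := by
      rw [ev_add, ev_X, ev_C, map_neg, map_neg, neg_smul, sub_eq_add_neg]
    rw [hxa, hW, smul_add, Finset.smul_sum]
    conv_lhs => rw [hba]
    rw [Dp_vand, ev_sum, Finset.sum_range_succ', smul_add, Finset.smul_sum, add_comm]
    congr 1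
    · rw [ev_natCast_mul, Dp_zero, one_mul, ev_C, Nat.choose_zero_right, Nat.cast_one, one_smul,
        smul_smul, smul_smul, Nat.sub_zero, ← hv]
      congr 1
      rw [map_mul, map_mul, map_natCast, map_natCast]
      ring
    · apply Finset.sum_congr rfl
      intro i hi
      have hi' : i < n := Finset.mem_range.mp hi
      have hip : i < p ^ 2 := lt_trans hi' hn
      have hip' : i + 1 < p ^ 2 := lt_of_le_of_lt hi' hn
      rw [ev_natCast_mul, mul_comm (Dp (-a) (i + 1)), ev_mul, ev_C, Dp_succ',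
        mul_comm (Polynomial.X + Polynomial.C (-a)) (Dp (-a - 1) i), ev_mul, ← dsc_eq_ev]
      obtain ⟨h1, _, _⟩ := hG2 i hip
      have h2 := h1 (ev z Q (Polynomial.X + Polynomial.C (-a)) x)
      have h3 : (n.factorial : ℤ_[p]) * (κ (i + 1) * w (n - (i + 1))) =
          (n.choose (i + 1) : ℤ_[p]) * (∏ j ∈ Finset.range (n - (i + 1)), (a + b - (j : ℤ_[p])))
            * p * (i.factorial : ℤ_[p]) := by
        rw [← hw, ← hκ (i + 1) hip' (by omega)]
        have h4 := Nat.choose_mul_factorial_mul_factorial (n := n) (k := i + 1) hi'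
        rw [← h4, Nat.factorial_succ]
        push_cast
        ring
      have h5 : (n.factorial : LaurentSeries 𝒪) * (HahnSeries.C (cf i) : LaurentSeries 𝒪) =
          (n.choose (i + 1) : LaurentSeries 𝒪) * (HahnSeries.C (z (∏ j ∈
            Finset.range (n - (i + 1)), (a + b - (j : ℤ_[p])))) : LaurentSeries 𝒪) * p *
            (i.factorial : LaurentSeries 𝒪) := by
        have h6 := congrArg (fun c : ℤ_[p] => (HahnSeries.C (z c) : LaurentSeries 𝒪)) h3
        simp only [map_mul, map_natCast] at h6 ⊢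
        rw [← h6]
        simp only [cf, map_mul]
      exact term_id _ _ _ _ _ _ L _ _ h5 h2
  · intro x
    rw [hT, hT, hb2, nbv_natsmul]
  · intro x
    rw [hW, hW, map_sum]
    apply Finset.sum_congr rfl
    intro i hi
    have hip : i < p ^ 2 := lt_trans (Finset.mem_range.mp hi) hn
    rw [nbv_Csmul, (hG2 i hip).2.1]
  · intro hQ B x hx
    constructor
    · intro k
      rw [hT, natCast_C]
      exact ordGe_Csmul _ (hb3 hQ B x hx) k
    · intro k
      rw [hW, Finset.sum_apply]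
      apply OrdGe.sum
      intro i hi
      have hip : i < p ^ 2 := lt_trans (Finset.mem_range.mp hi) hn
      exact ordGe_Csmul _ ((hG2 i hip).2.2 hQ B x hx) k

end Pool.Agent.Helper95_CM.H69
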